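import Mathlib
import Pool.Agent.J4.H38.DV.TDefs

/-! Project GD: ARBITRARY sets of primes, all shifts. Definitions. -/

set_option autoImplicit false

namespace Pool.Agent.J4.H38.GD

open Finset Filter
open Pool.Agent.Y822 (ro Ro)
open Pool.Agent.H373R2.T7 (pz Vz rhoA)

/-- the shifts `t ≤ H` for which `t + b` has no prime factor `≤ w` -/
def AB (w b H : ℕ) : Finset ℕ := (Icc 1 H).filter (fun t => ∀ p ∈ pz w, ¬ p ∣ t + b)

/-- the local densities of the primes in `(w, y]` -/
noncomputable def Pw (Q : ℕ → ℕ → Prop) (w y : ℕ) : ℝ :=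
  ∏ p ∈ (pz y).filter (fun p => w < p), (1 - (rhoA Q p : ℝ) / (p - 1 : ℝ))

/-- Euler's function of the product of the primes up to `w` -/
noncomputable def phW (w : ℕ) : ℝ := ∏ p ∈ pz w, ((p : ℝ) - 1)

/-- `b` such that `t + b ≡ N - r + t` modulo all primes `≤ w` -/
def bG (w r N : ℕ) : ℕ := N + ((∏ p ∈ pz w, p) - 1) * r

open Classical in
/-- the von Mangoldt function in a residue class -/
noncomputable def muR (w r m : ℕ) : ℝ :=
  if ∀ p ∈ pz w, m ≡ r [MOD p] then ArithmeticFunction.vonMangoldt m else 0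

end Pool.Agent.J4.H38.GD
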