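import Mathlib
import Pool.Agent.J4.H38.GD.Defs

/-! Project GD, piece MK (helper56): the Markov step. -/

set_option autoImplicit false

namespace Pool.Agent.J4.H38.GD

open Finset Filter
open Pool.Agent.Y822
open Pool.Agent.J4.H38.DV
open Pool.Agent.H373R2.T7 (pz Vz mem_pz rhoA)

/-- the logarithm on the large elements of `P` -/
noncomputable def fP (P : Finset ℕ) (N w m : ℕ) : ℝ :=
  if m ∈ P ∧ N < m ^ 2 ∧ w < m then Real.log m else 0

lemma fP_nonneg (P : Finset ℕ) (N w m : ℕ) : 0 ≤ fP P N w m := by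
  unfold fP
  split_ifs
  · exact Real.log_natCast_nonneg m
  · exact le_rfl

lemma fP_le {P : Finset ℕ} {N : ℕ} (hP : P ⊆ (Icc 1 N).filter Nat.Prime) (w m : ℕ) :
    fP P N w m ≤ Real.log N := by
  unfold fP
  split_ifs with h
  · have h1 := hP h.1
    rw [mem_filter, mem_Icc] at h1
    apply Real.log_le_log (by exact_mod_cast h1.1.1)
    exact_mod_cast h1.1.2
  · exact Real.log_natCast_nonneg N

lemma fP_vm {P : Finset ℕ} {N : ℕ} (hP : P ⊆ (Icc 1 N).filter Nat.Prime) (w m : ℕ) :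
    fP P N w m ≤ ArithmeticFunction.vonMangoldt m := by
  unfold fP
  split_ifs with h
  · have h1 := hP h.1
    rw [mem_filter] at h1
    rw [ArithmeticFunction.vonMangoldt_apply_prime h1.2]
  · exact ArithmeticFunction.vonMangoldt_nonneg

lemma fP_ne {P : Finset ℕ} {N : ℕ} (hP : P ⊆ (Icc 1 N).filter Nat.Prime) (w m : ℕ)
    (h : fP P N w m ≠ 0) : ∀ p ∈ pz w, ¬ p ∣ m := by
  unfold fP at h
  split_ifs at h with h1
  · intro p hp hpm
    rw [mem_pz] at hp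
    have h2 := hP h1.1
    rw [mem_filter] at h2
    have h3 := (Nat.prime_dvd_prime_iff_eq hp.2 h2.2).1 hpm
    omega
  · exact absurd rfl h

lemma sumP {P : Finset ℕ} {N : ℕ} (hP : P ⊆ (Icc 1 N).filter Nat.Prime) (w : ℕ) (X : ℕ → ℝ) :
    ∑ m ∈ Icc 1 N, fP P N w m * X m = ∑ m ∈ P, fP P N w m * X m := by
  symm
  apply sum_subset (fun m hm => (mem_filter.1 (hP hm)).1)
  intro m _ hm
  unfold fP
  rw [if_neg (fun h => hm h.1), zero_mul]

open Classical in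
lemma prod_ro (w : ℕ) (v : ℕ → ℕ) (D : Finset ℕ) :
    ∏ t ∈ D, ro w (v t) = if ∀ t ∈ D, Ro w (v t) then 1 else 0 := by
  unfold ro
  rw [prod_ite_zero]
  simp

open Classical in
/-- the Markov step -/
lemma core {k w y N H : ℕ} {P : Finset ℕ} (hP : P ⊆ (Icc 1 N).filter Nat.Prime) (u : ℕ → ℕ → ℕ)
    {G V ε E : ℝ} (hG : 0 < G) (hN : 2 ≤ N)
    (hsm : 1 / 2 * Real.log N * (√N + w) ≤ ε / 2 * V ^ k * N)
    (hE : ∑ D ∈ (Icc 1 H).powersetCard k, |∑ m ∈ Icc 1 N, fP P N w m * ∏ t ∈ D, ro y (u m t) -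
      G ^ k * ∑ m ∈ Icc 1 N, fP P N w m * ∏ t ∈ D, ro w (u m t)| ≤ E)
    {Bad : Finset (Finset ℕ)} (hBad : ∀ D ∈ Bad, D ∈ (Icc 1 H).powersetCard k ∧
      ∑ p ∈ P, ∏ t ∈ D, ro y (u p t) < G ^ k *
        (1 / 4 * ((P.filter (fun p => ∀ t ∈ D, Ro w (u p t))).card : ℝ) -
          ε * V ^ k * (N / Real.log N))) :
    (Bad.card : ℝ) * (G ^ k * (ε / 2 * V ^ k * N)) ≤ E := by
  have hlog : 0 < Real.log N := Real.log_pos (by exact_mod_cast hN)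
  have hGk : 0 < G ^ k := pow_pos hG k
  have h1 : ∀ D ∈ Bad, G ^ k * (ε / 2 * V ^ k * N) ≤
      |∑ m ∈ Icc 1 N, fP P N w m * ∏ t ∈ D, ro y (u m t) -
      G ^ k * ∑ m ∈ Icc 1 N, fP P N w m * ∏ t ∈ D, ro w (u m t)| := by
    intro D hD
    obtain ⟨hD1, hD2⟩ := hBad D hD
    rw [sumP hP, sumP hP]
    set cD : ℝ := ((P.filter (fun p => ∀ t ∈ D, Ro w (u p t))).card : ℝ) with hcD
    have hc0 : 0 ≤ cD := by positivity
    have hA : ∑ m ∈ P, fP P N w m * ∏ t ∈ D, ro y (u m t) ≤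
        Real.log N * ∑ p ∈ P, ∏ t ∈ D, ro y (u p t) := by
      rw [mul_sum]
      apply sum_le_sum
      intro m _
      exact mul_le_mul_of_nonneg_right (fP_le hP w m) (prod_nonneg fun t _ => ro_nonneg _ _)
    have hB : 1 / 2 * Real.log N * (cD - (√N + w)) ≤
        ∑ m ∈ P, fP P N w m * ∏ t ∈ D, ro w (u m t) := by
      set P' := P.filter (fun m => (N < m ^ 2 ∧ w < m) ∧ ∀ t ∈ D, Ro w (u m t)) with hP'
      have h2 : cD ≤ P'.card + (√N + w) := by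
        have h3 : P.filter (fun p => ∀ t ∈ D, Ro w (u p t)) ⊆
            P' ∪ (Icc 1 (Nat.sqrt N) ∪ Icc 1 w) := by
          intro m hm
          rw [mem_filter] at hm
          have h4 := hP hm.1
          rw [mem_filter, mem_Icc] at h4
          rw [mem_union, mem_union, mem_Icc, mem_Icc, hP', mem_filter]
          by_cases h5 : N < m ^ 2
          · by_cases h6 : w < m
            · exact Or.inl ⟨hm.1, ⟨h5, h6⟩, hm.2⟩
            · exact Or.inr (Or.inr ⟨h4.1.1, by omega⟩)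
          · refine Or.inr (Or.inl ⟨h4.1.1, ?_⟩)
            rw [Nat.le_sqrt']
            omega
        have h4 := card_le_card h3
        have h5 : (P' ∪ (Icc 1 (Nat.sqrt N) ∪ Icc 1 w)).card ≤ P'.card + (Nat.sqrt N + w) := by
          refine (card_union_le _ _).trans ?_
          apply Nat.add_le_add_left
          refine (card_union_le _ _).trans ?_
          simp
        have h6 : cD ≤ ((P'.card + (Nat.sqrt N + w) : ℕ) : ℝ) := by
          rw [hcD]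
          exact_mod_cast h4.trans h5
        push_cast at h6
        have h7 : ((Nat.sqrt N : ℕ) : ℝ) ≤ √N := Real.nat_sqrt_le_real_sqrt
        linarith
      have h3 : (P'.card : ℝ) * (1 / 2 * Real.log N) ≤
          ∑ m ∈ P, fP P N w m * ∏ t ∈ D, ro w (u m t) := by
        rw [← nsmul_eq_mul, ← sum_const]
        refine le_trans ?_ (sum_le_sum_of_subset_of_nonneg (filter_subset _ _ : P' ⊆ P) ?_)
        · apply sum_le_sum
          intro m hm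
          rw [hP', mem_filter] at hm
          rw [prod_ro w (fun t => u m t) D, if_pos hm.2.2, mul_one]
          unfold fP
          rw [if_pos ⟨hm.1, hm.2.1⟩]
          have h4 : Real.log N ≤ Real.log ((m : ℝ) ^ 2) := by
            apply Real.log_le_log (by positivity)
            exact_mod_cast hm.2.1.1.le
          rw [Real.log_pow] at h4
          push_cast at h4
          linarith
        · intro m _ _
          exact mul_nonneg (fP_nonneg _ _ _ _) (prod_nonneg fun t _ => ro_nonneg _ _)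
      have h4 : 1 / 2 * Real.log N * (cD - (√N + w)) ≤ P'.card * (1 / 2 * Real.log N) := by
        have : 0 ≤ 1 / 2 * Real.log N := by positivity
        nlinarith
      linarith
    have h2 : Real.log N * ∑ p ∈ P, ∏ t ∈ D, ro y (u p t) ≤
        G ^ k * (1 / 4 * Real.log N * cD - ε * V ^ k * N) := by
      have h3 := mul_le_mul_of_nonneg_left hD2.le hlog.le
      refine h3.trans (le_of_eq ?_)
      field_simp
    have h3 := mul_le_mul_of_nonneg_left hB hGk.le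
    have h4 : G ^ k * (ε / 2 * V ^ k * N) ≤ G ^ k * ∑ m ∈ P, fP P N w m * ∏ t ∈ D, ro w (u m t) -
        ∑ m ∈ P, fP P N w m * ∏ t ∈ D, ro y (u m t) := by
      have h5 : G ^ k * (ε / 2 * V ^ k * N) ≤ G ^ k * (1 / 2 * Real.log N * (cD - (√N + w))) -
          G ^ k * (1 / 4 * Real.log N * cD - ε * V ^ k * N) := by
        rw [← mul_sub]
        apply mul_le_mul_of_nonneg_left _ hGk.le
        have h6 : 0 ≤ 1 / 4 * Real.log N * cD := by positivity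
        nlinarith
      linarith
    refine h4.trans ?_
    rw [abs_sub_comm]
    exact le_abs_self _
  have h2 : (Bad.card : ℝ) * (G ^ k * (ε / 2 * V ^ k * N)) ≤ ∑ D ∈ Bad,
      |∑ m ∈ Icc 1 N, fP P N w m * ∏ t ∈ D, ro y (u m t) -
      G ^ k * ∑ m ∈ Icc 1 N, fP P N w m * ∏ t ∈ D, ro w (u m t)| := by
    rw [← nsmul_eq_mul, ← sum_const]
    exact sum_le_sum h1
  refine h2.trans (le_trans ?_ hE)
  exact sum_le_sum_of_subset_of_nonneg (fun D hD => (hBad D hD).1) (fun _ _ _ => abs_nonneg _)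

lemma GG_pos {w : ℕ} (hw : 2 ≤ w) (y : ℕ) : 0 < GG w y := by
  unfold GG
  apply prod_pos
  intro p hp
  rw [mem_filter] at hp
  have h1 : (3 : ℝ) ≤ p := by
    have : 3 ≤ p := by omega
    exact_mod_cast this
  have h2 : 1 / ((p : ℝ) - 1) ≤ 1 / 2 := one_div_le_one_div_of_le (by norm_num) (by linarith)
  linarith

lemma phW_pos (w : ℕ) : 0 < phW w := by
  unfold phW
  apply prod_pos
  intro p hp
  rw [mem_pz] at hp
  have : (2 : ℝ) ≤ p := by exact_mod_cast hp.2.two_le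
  linarith

/-- choice of `w` -/
lemma choose_w (k : ℕ) {C c ε : ℝ} (hc : 0 < c) (hε : 0 < ε) (w₀ : ℕ)
    (hV : ∀ w : ℕ, 3 ≤ w → c / Real.log w ≤ Vz w) :
    ∃ w : ℕ, w₀ ≤ w ∧ 3 ≤ w ∧ 2 * C * (1 / (w : ℝ)) ^ (1 / 4 : ℝ) ≤ ε ^ 2 * (Vz w) ^ (2 * k) := by
  have h1 : (fun x : ℝ => Real.log x ^ (2 * k : ℕ)) =o[atTop] fun x : ℝ => x ^ (1 / 4 : ℝ) := by
    have h2 := isLittleO_log_rpow_rpow_atTop (s := 1 / 4) ((2 * k : ℕ) : ℝ) (by norm_num)
    refine h2.congr' ?_ (EventuallyEq.refl _ _)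
    filter_upwards with x
    rw [Real.rpow_natCast]
  set δ : ℝ := ε ^ 2 * c ^ (2 * k) / (2 * |C| + 1) with hδ
  have hδ0 : 0 < δ := by positivity
  have h3 := (h1.def hδ0)
  have h4 : ∀ᶠ w : ℕ in atTop, ‖Real.log (w : ℝ) ^ (2 * k : ℕ)‖ ≤ δ * ‖(w : ℝ) ^ (1 / 4 : ℝ)‖ :=
    tendsto_natCast_atTop_atTop.eventually h3
  obtain ⟨w, hw1, hw2, hw3⟩ := (h4.and ((eventually_ge_atTop w₀).and (eventually_ge_atTop 3))).exists
  refine ⟨w, hw2, hw3, ?_⟩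
  have hw0 : (0 : ℝ) < w := by
    have : 0 < w := by omega
    exact_mod_cast this
  have hlog : 0 < Real.log w := by
    apply Real.log_pos
    have : 1 < w := by omega
    exact_mod_cast this
  have hwp : 0 < (w : ℝ) ^ (1 / 4 : ℝ) := Real.rpow_pos_of_pos hw0 _
  rw [Real.norm_of_nonneg (by positivity), Real.norm_of_nonneg hwp.le] at hw1
  have h5 : (c / Real.log w) ^ (2 * k) ≤ (Vz w) ^ (2 * k) :=
    pow_le_pow_left₀ (by positivity) (hV w hw3) _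
  have h6 : (1 / (w : ℝ)) ^ (1 / 4 : ℝ) = 1 / (w : ℝ) ^ (1 / 4 : ℝ) := by
    rw [Real.div_rpow (by norm_num) hw0.le, Real.one_rpow]
  rw [h6]
  refine le_trans ?_ (mul_le_mul_of_nonneg_left h5 (by positivity))
  rw [div_pow, mul_one_div, mul_div_assoc', div_le_div_iff₀ hwp (by positivity)]
  have h7 : 2 * C ≤ 2 * |C| + 1 := by linarith [le_abs_self C]
  have h8 : (2 * |C| + 1) * Real.log w ^ (2 * k) ≤ ε ^ 2 * c ^ (2 * k) * (w : ℝ) ^ (1 / 4 : ℝ) := by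
    have h9 : 0 < 2 * |C| + 1 := by positivity
    calc (2 * |C| + 1) * Real.log w ^ (2 * k) ≤ (2 * |C| + 1) * (δ * (w : ℝ) ^ (1 / 4 : ℝ)) :=
          mul_le_mul_of_nonneg_left hw1 h9.le
      _ = ε ^ 2 * c ^ (2 * k) * (w : ℝ) ^ (1 / 4 : ℝ) := by
          rw [hδ]
          field_simp
  have h9 : 2 * C * Real.log w ^ (2 * k) ≤ (2 * |C| + 1) * Real.log w ^ (2 * k) :=
    mul_le_mul_of_nonneg_right h7 (by positivity)
  linarith

/-- the conditions on `N` -/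
lemma ev_N (w k : ℕ) {V ε κ : ℝ} (hV : 0 < V) (hε : 0 < ε) (hκ : 0 < κ) : ∀ᶠ N : ℕ in atTop,
    2 ≤ N ∧ 1 / 2 * Real.log N * (√N + w) ≤ ε / 2 * V ^ k * N ∧ (w : ℝ) + 1 ≤ (N : ℝ) ^ κ := by
  have h1 : (fun x : ℝ => Real.log x) =o[atTop] fun x : ℝ => x ^ (1 / 2 : ℝ) :=
    isLittleO_log_rpow_atTop (by norm_num)
  have hδ : 0 < ε * V ^ k / 2 := by positivity
  have h2 : ∀ᶠ N : ℕ in atTop, ‖Real.log (N : ℝ)‖ ≤ ε * V ^ k / 2 * ‖(N : ℝ) ^ (1 / 2 : ℝ)‖ :=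
    tendsto_natCast_atTop_atTop.eventually (h1.def hδ)
  have h3 : ∀ᶠ N : ℕ in atTop, (w : ℝ) + 1 ≤ (N : ℝ) ^ κ :=
    ((tendsto_rpow_atTop hκ).comp tendsto_natCast_atTop_atTop).eventually_ge_atTop _
  filter_upwards [h2, h3, eventually_ge_atTop 2, eventually_ge_atTop (w ^ 2)] with N h4 h5 h6 h7
  refine ⟨h6, ?_, h5⟩
  have hN0 : (0 : ℝ) < N := by
    have : 0 < N := by omega
    exact_mod_cast this
  have hlog : 0 ≤ Real.log N := Real.log_natCast_nonneg N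
  rw [Real.norm_of_nonneg hlog, Real.norm_of_nonneg (by positivity), ← Real.sqrt_eq_rpow] at h4
  have h8 : (w : ℝ) ≤ √N := by
    rw [Real.le_sqrt (by positivity) hN0.le]
    exact_mod_cast h7
  have h9 : 1 / 2 * Real.log N * (√N + w) ≤ 1 / 2 * (ε * V ^ k / 2 * √N) * (√N + √N) := by
    apply mul_le_mul
    · linarith
    · linarith
    · positivity
    · positivity
  refine h9.trans (le_of_eq ?_)
  have h10 : √(N : ℝ) * √N = N := Real.mul_self_sqrt hN0.le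
  linear_combination (ε * V ^ k / 2) * h10

lemma le_of_rpow {w y N : ℕ} {κ : ℝ} (h1 : (w : ℝ) + 1 ≤ (N : ℝ) ^ κ) (h2 : (N : ℝ) ^ κ ≤ y + 1) :
    w ≤ y := by
  have : (w : ℝ) ≤ y := by linarith
  exact_mod_cast this

lemma fin_step {k : ℕ} {B G V ε C Wq N H : ℝ} (hG : 0 < G) (hV : 0 < V) (hε : 0 < ε)
    (hN : 0 < N) (hH : 0 ≤ H) (hw : 2 * C * Wq ≤ ε ^ 2 * V ^ (2 * k))
    (h : B * (G ^ k * (ε / 2 * V ^ k * N)) ≤ C * Wq * (N * (G * H) ^ k)) :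
    B ≤ ε * (V * H) ^ k := by
  have hGk : 0 < G ^ k := pow_pos hG k
  have hVk : 0 < V ^ k := pow_pos hV k
  have h1 : B * (ε * V ^ k) ≤ 2 * C * Wq * H ^ k := by
    have h2 : (B * (ε * V ^ k)) * (G ^ k * N / 2) ≤ (2 * C * Wq * H ^ k) * (G ^ k * N / 2) := by
      rw [mul_pow] at h
      nlinarith
    exact le_of_mul_le_mul_right h2 (by positivity)
  have h2 : 2 * C * Wq * H ^ k ≤ ε ^ 2 * V ^ (2 * k) * H ^ k :=
    mul_le_mul_of_nonneg_right hw (by positivity)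
  have h3 : B * (ε * V ^ k) ≤ (ε * (V * H) ^ k) * (ε * V ^ k) := by
    refine (h1.trans h2).trans (le_of_eq ?_)
    rw [mul_pow, two_mul, pow_add]
    ring
  exact le_of_mul_le_mul_right h3 (by positivity)

/-- statement of BR -/
def S_BR : Prop := ∀ (k : ℕ), ∃ (C : ℝ) (w₀ : ℕ), 0 < C ∧ 3 ≤ w₀ ∧ ∀ w : ℕ, w₀ ≤ w → ∃ κ₀ : ℝ, 0 < κ₀ ∧ ∀ κ : ℝ, 0 < κ → κ ≤ κ₀ →
    ∃ Λ : ℝ, 0 < Λ ∧ ∀ᶠ N : ℕ in atTop, ∀ y : ℕ, (y : ℝ) < (N : ℝ) ^ κ → (N : ℝ) ^ κ ≤ y + 1 →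
    ∀ H : ℕ, Λ * Real.log N ≤ H → H ≤ N → ∀ r : ℕ, (∀ p ∈ pz w, ¬ p ∣ r) → ∀ f : ℕ → ℝ, (∀ m, 0 ≤ f m ∧ f m ≤ muR w r m) →
    ∑ D ∈ (AB w (bG w r N) H).powersetCard k, |Fs f N y D - GG w y ^ k * Fs f N y ∅| ≤
      C * (1 / (w : ℝ)) ^ (1 / 4 : ℝ) * (N / phW w * (GG w y * H) ^ k)

/-- statement of SS -/
def S_SS : Prop := ∀ (k w y N H : ℕ), 2 ≤ w → w ≤ y → ∀ (G E : ℝ), 0 ≤ E → ∀ (f : ℕ → ℝ),
    (∀ m, 0 ≤ f m ∧ f m ≤ ArithmeticFunction.vonMangoldt m) → (∀ m, f m ≠ 0 → ∀ p ∈ pz w, ¬ p ∣ m) →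
    (∀ r : ℕ, (∀ p ∈ pz w, ¬ p ∣ r) → ∀ g : ℕ → ℝ, (∀ m, 0 ≤ g m ∧ g m ≤ muR w r m) →
      ∑ D ∈ (AB w (bG w r N) H).powersetCard k, |Fs g N y D - G ^ k * Fs g N y ∅| ≤ E / phW w) →
    ∑ D ∈ (Icc 1 H).powersetCard k, |Fs f N y D - G ^ k * Fs f N w D| ≤ E

open Classical in
/-- **MK** Markov, from `baseR` and `sumR` -/
theorem baseA_of (hBR : S_BR) (hSS : S_SS)
    (hVz : ∃ c : ℝ, 0 < c ∧ ∀ w : ℕ, 3 ≤ w → c / Real.log w ≤ Vz w ∧ Vz w ≤ 1)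
    (k : ℕ) (ε : ℝ) (hε : 0 < ε) : ∃ w : ℕ, 3 ≤ w ∧ ∃ κ₀ : ℝ, 0 < κ₀ ∧ ∀ κ : ℝ, 0 < κ → κ ≤ κ₀ →
    ∃ Λ : ℝ, 0 < Λ ∧ ∀ᶠ N : ℕ in atTop, ∀ y : ℕ, (y : ℝ) < (N : ℝ) ^ κ → (N : ℝ) ^ κ ≤ y + 1 →
    ∀ H : ℕ, Λ * Real.log N ≤ H → H ≤ N → ∀ P ⊆ (Icc 1 N).filter Nat.Prime,
    ∀ Bad : Finset (Finset ℕ), (∀ D ∈ Bad, D ∈ (Icc 1 H).powersetCard k ∧
      ∑ p ∈ P, ∏ t ∈ D, ro y (N - p + t) < GG w y ^ k *
        (1 / 4 * ((P.filter (fun p => ∀ t ∈ D, Ro w (N - p + t))).card : ℝ) - ε * Vz w ^ k * (N / Real.log N))) →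
    (Bad.card : ℝ) ≤ ε * (Vz w * H) ^ k := by
  obtain ⟨C, w₀, hC, hw₀, hR⟩ := hBR k
  obtain ⟨c, hc, hV⟩ := hVz
  obtain ⟨w, hw1, hw3, hw⟩ := choose_w k (C := C) hc hε w₀ (fun w hw => (hV w hw).1)
  obtain ⟨κ₀, hκ₀, hR2⟩ := hR w hw1
  have hVw : 0 < Vz w := by
    refine lt_of_lt_of_le ?_ (hV w hw3).1
    have : 0 < Real.log w := by
      apply Real.log_pos
      have : 1 < w := by omega
      exact_mod_cast this
    positivity
  refine ⟨w, hw3, κ₀, hκ₀, fun κ hκ hκ1 => ?_⟩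
  obtain ⟨Λ, hΛ, hR3⟩ := hR2 κ hκ hκ1
  refine ⟨Λ, hΛ, ?_⟩
  filter_upwards [hR3, ev_N w k hVw hε hκ] with N hR4 hN
  obtain ⟨hN2, hN3, hN4⟩ := hN
  intro y hy1 hy2 H hH1 hH2 P hP Bad hBad
  have hwy : w ≤ y := le_of_rpow hN4 hy2
  have hG : 0 < GG w y := GG_pos (by omega) y
  have hp : 0 < phW w := phW_pos w
  have hN0 : (0 : ℝ) < N := by
    have : 0 < N := by omega
    exact_mod_cast this
  have hW : 0 ≤ (1 / (w : ℝ)) ^ (1 / 4 : ℝ) := by positivity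
  have hSS' := hSS k w y N H (by omega) hwy (GG w y)
    (C * (1 / (w : ℝ)) ^ (1 / 4 : ℝ) * (N * (GG w y * H) ^ k)) (by positivity) (fP P N w)
    (fun m => ⟨fP_nonneg _ _ _ _, fP_vm hP w m⟩) (fun m hm => fP_ne hP w m hm) (by
      intro r hr g hg
      refine (hR4 y hy1 hy2 H hH1 hH2 r hr g hg).trans (le_of_eq ?_)
      ring)
  exact fin_step hG hVw hε hN0 (by positivity) hw
    (core hP (fun m t => N - m + t) hG hN2 hN3 hSS' hBad)

end Pool.Agent.J4.H38.GD
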