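import Mathlib
import Pool.Agent.J4.H38.GD.Mk

/-! Project GD, piece MKT (helper56): the Markov step, twin version. -/

set_option autoImplicit false

namespace Pool.Agent.J4.H38.GD

open Finset Filter
open Pool.Agent.Y822
open Pool.Agent.J4.H38.DV
open Pool.Agent.H373R2.T7 (pz Vz mem_pz rhoA)

/-- statement of BRT -/
def S_BRT : Prop := ∀ (k : ℕ), ∃ (C : ℝ) (w₀ : ℕ), 0 < C ∧ 3 ≤ w₀ ∧ ∀ w : ℕ, w₀ ≤ w → ∃ κ₀ : ℝ, 0 < κ₀ ∧ ∀ κ : ℝ, 0 < κ → κ ≤ κ₀ →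
    ∃ Λ : ℝ, 0 < Λ ∧ ∀ᶠ N : ℕ in atTop, ∀ y : ℕ, (y : ℝ) < (N : ℝ) ^ κ → (N : ℝ) ^ κ ≤ y + 1 →
    ∀ H : ℕ, Λ * Real.log N ≤ H → H ≤ N → ∀ r : ℕ, (∀ p ∈ pz w, ¬ p ∣ r) → ∀ f : ℕ → ℝ, (∀ m, 0 ≤ f m ∧ f m ≤ muR w r m) →
    ∑ D ∈ (AB w r H).powersetCard k, |Ft f N y D - GG w y ^ k * Ft f N y ∅| ≤
      C * (1 / (w : ℝ)) ^ (1 / 4 : ℝ) * (N / phW w * (GG w y * H) ^ k)

/-- statement of SST -/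
def S_SST : Prop := ∀ (k w y N H : ℕ), 2 ≤ w → w ≤ y → ∀ (G E : ℝ), 0 ≤ E → ∀ (f : ℕ → ℝ),
    (∀ m, 0 ≤ f m ∧ f m ≤ ArithmeticFunction.vonMangoldt m) → (∀ m, f m ≠ 0 → ∀ p ∈ pz w, ¬ p ∣ m) →
    (∀ r : ℕ, (∀ p ∈ pz w, ¬ p ∣ r) → ∀ g : ℕ → ℝ, (∀ m, 0 ≤ g m ∧ g m ≤ muR w r m) →
      ∑ D ∈ (AB w r H).powersetCard k, |Ft g N y D - G ^ k * Ft g N y ∅| ≤ E / phW w) →
    ∑ D ∈ (Icc 1 H).powersetCard k, |Ft f N y D - G ^ k * Ft f N w D| ≤ E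

open Classical in
/-- **MKT** Markov, from `baseRT` and `sumRT` -/
theorem baseAT_of (hBR : S_BRT) (hSS : S_SST)
    (hVz : ∃ c : ℝ, 0 < c ∧ ∀ w : ℕ, 3 ≤ w → c / Real.log w ≤ Vz w ∧ Vz w ≤ 1)
    (k : ℕ) (ε : ℝ) (hε : 0 < ε) : ∃ w : ℕ, 3 ≤ w ∧ ∃ κ₀ : ℝ, 0 < κ₀ ∧ ∀ κ : ℝ, 0 < κ → κ ≤ κ₀ →
    ∃ Λ : ℝ, 0 < Λ ∧ ∀ᶠ N : ℕ in atTop, ∀ y : ℕ, (y : ℝ) < (N : ℝ) ^ κ → (N : ℝ) ^ κ ≤ y + 1 →
    ∀ H : ℕ, Λ * Real.log N ≤ H → H ≤ N → ∀ P ⊆ (Icc 1 N).filter Nat.Prime,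
    ∀ Bad : Finset (Finset ℕ), (∀ D ∈ Bad, D ∈ (Icc 1 H).powersetCard k ∧
      ∑ p ∈ P, ∏ t ∈ D, ro y (p + t) < GG w y ^ k *
        (1 / 4 * ((P.filter (fun p => ∀ t ∈ D, Ro w (p + t))).card : ℝ) - ε * Vz w ^ k * (N / Real.log N))) →
    (Bad.card : ℝ) ≤ ε * (Vz w * H) ^ k := by
  obtain ⟨C, w₀, hC, hw₀, hR⟩ := hBR k
  obtain ⟨c, hc, hV⟩ := hVz
  obtain ⟨w, hw1, hw3, hw⟩ := choose_w k (C := C) hc hε w₀ (fun w hw => (hV w hw).1)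
  obtain ⟨κ₀, hκ₀, hR2⟩ := hR w hw1
  have hVw : 0 < Vz w := by
    refine lt_of_lt_of_le ?_ (hV w hw3).1
    have : 0 < Real.log w := by
      apply Real.log_pos
      have : 1 < w := by omega
      exact_mod_cast this
    positivity
  refine ⟨w, hw3, κ₀, hκ₀, fun κ hκ hκ1 => ?_⟩
  obtain ⟨Λ, hΛ, hR3⟩ := hR2 κ hκ hκ1
  refine ⟨Λ, hΛ, ?_⟩
  filter_upwards [hR3, ev_N w k hVw hε hκ] with N hR4 hN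
  obtain ⟨hN2, hN3, hN4⟩ := hN
  intro y hy1 hy2 H hH1 hH2 P hP Bad hBad
  have hwy : w ≤ y := le_of_rpow hN4 hy2
  have hG : 0 < GG w y := GG_pos (by omega) y
  have hp : 0 < phW w := phW_pos w
  have hN0 : (0 : ℝ) < N := by
    have : 0 < N := by omega
    exact_mod_cast this
  have hW : 0 ≤ (1 / (w : ℝ)) ^ (1 / 4 : ℝ) := by positivity
  have hSS' := hSS k w y N H (by omega) hwy (GG w y)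
    (C * (1 / (w : ℝ)) ^ (1 / 4 : ℝ) * (N * (GG w y * H) ^ k)) (by positivity) (fP P N w)
    (fun m => ⟨fP_nonneg _ _ _ _, fP_vm hP w m⟩) (fun m hm => fP_ne hP w m hm) (by
      intro r hr g hg
      refine (hR4 y hy1 hy2 H hH1 hH2 r hr g hg).trans (le_of_eq ?_)
      ring)
  exact fin_step hG hVw hε hN0 (by positivity) hw
    (core hP (fun m t => m + t) hG hN2 hN3 hSS' hBad)

end Pool.Agent.J4.H38.GD
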