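import Mathlib
import Pool.Agent.J4.H38.GD.Defs
import Pool.Agent.J4.H38.SR.Cnt

/-! Project GD, second part (SD): sharp density. Definitions. -/

set_option autoImplicit false

namespace Pool.Agent.J4.H38.GD

open Finset Filter
open Pool.Agent.H373R2.T7 (pz Vz mem_pz)

/-- the large common prime factors -/
noncomputable def tau (z w : ℕ) (h : ℤ) : ℝ :=
  ∏ p ∈ (pz w).filter (fun p => z < p ∧ (p : ℤ) ∣ h), (1 + 2 / (p : ℝ))

end Pool.Agent.J4.H38.GD
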