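import Mathlib
import Pool.Agent.J4.H38.GD.Defs
import Pool.Agent.J4.H38.GD.SDefs
import Pool.Agent.J4.H38.DV.All
import Pool.Agent.J4.H46.GD.Av1
import Pool.Agent.J4.H40.GD.Av2
import Pool.Agent.J4.H14.GD.Sm
import Pool.Agent.J4.H14.GD.Xr
import Pool.Agent.J4.H55.GD.Core
import Pool.Agent.J4.H46.GD.Ss
import Pool.Agent.J4.H38.GD.Mk
import Pool.Agent.J4.H38.GD.Mkt
import Pool.Agent.J4.H71.SD.P1
import Pool.Agent.J4.H71.SD.P2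
import Pool.Agent.J4.H56.GD.P3
import Pool.Agent.J4.H46.GD.P4
import Pool.Agent.J4.H40.GD.P5

/-! Project GD: the proved pieces under common names. -/

set_option autoImplicit false

namespace Pool.Agent.J4.H38.GD

open Finset Filter
open Pool.Agent.Y822
open Pool.Agent.J4.H38.SR
open Pool.Agent.J4.H38.SR2
open Pool.Agent.J4.H38.DV
open Pool.Agent.H373R2.T7 (pz Vz mem_pz rhoA PerA lam_fund)

theorem AB_card (w : ℕ) : ∃ H₀ : ℕ, ∀ H b : ℕ, H₀ ≤ H → 1 / 2 * Vz w * H ≤ (AB w b H).card ∧ ((AB w b H).card : ℝ) ≤ H :=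
  Pool.Agent.J4.H14.GD.AB_card w

theorem gg_bd2 (w y : ℕ) (hw : 2 ≤ w) (hwy : w ≤ y) :
    1 / 2 * (Vz y / Vz w) ≤ GG w y ∧ GG w y ≤ Vz y / Vz w := Pool.Agent.J4.H14.GD.gg_bd2 w y hw hwy

theorem Vz_low : ∃ c : ℝ, 0 < c ∧ ∀ w : ℕ, 3 ≤ w → c / Real.log w ≤ Vz w ∧ Vz w ≤ 1 := Pool.Agent.J4.H14.GD.Vz_low

/-- the base in a residue class -/
theorem baseR : S_BR := fun k =>
  Pool.Agent.J4.H55.GD.baseR' Pool.Agent.J4.H46.GD.av1 Pool.Agent.J4.H40.GD.av2 AB_card gg_bd2 Vz_low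
    Pool.Agent.J4.H14.GD.xcntR Pool.Agent.J4.H31.DV.stepD (fun k A F _ _ _ => Pool.Agent.J4.H56.DV.chain k A F) k

/-- the base in a residue class, for the sums -/
theorem baseRT : S_BRT := fun k =>
  Pool.Agent.J4.H55.GD.baseRT' Pool.Agent.J4.H46.GD.av1 Pool.Agent.J4.H40.GD.av2 AB_card gg_bd2 Vz_low
    Pool.Agent.J4.H14.GD.xcntRT (Pool.Agent.J4.H31.DV.stepDT_of dualT)
    (fun k A F _ _ _ => Pool.Agent.J4.H56.DV.chain k A F) k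

open Classical in
/-- the base for arbitrary sets of primes -/
theorem baseA (k : ℕ) (ε : ℝ) (hε : 0 < ε) : ∃ w : ℕ, 3 ≤ w ∧ ∃ κ₀ : ℝ, 0 < κ₀ ∧ ∀ κ : ℝ, 0 < κ → κ ≤ κ₀ →
    ∃ Λ : ℝ, 0 < Λ ∧ ∀ᶠ N : ℕ in atTop, ∀ y : ℕ, (y : ℝ) < (N : ℝ) ^ κ → (N : ℝ) ^ κ ≤ y + 1 →
    ∀ H : ℕ, Λ * Real.log N ≤ H → H ≤ N → ∀ P ⊆ (Icc 1 N).filter Nat.Prime,
    ∀ Bad : Finset (Finset ℕ), (∀ D ∈ Bad, D ∈ (Icc 1 H).powersetCard k ∧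
      ∑ p ∈ P, ∏ t ∈ D, ro y (N - p + t) < GG w y ^ k *
        (1 / 4 * ((P.filter (fun p => ∀ t ∈ D, Ro w (N - p + t))).card : ℝ) - ε * Vz w ^ k * (N / Real.log N))) →
    (Bad.card : ℝ) ≤ ε * (Vz w * H) ^ k :=
  baseA_of baseR (fun k w y N H hw hwy G E hE f hf hfw h => sumR k w y N H hw hwy G E hE f hf hfw h) Vz_low k ε hε

open Classical in
/-- the base for arbitrary sets of primes, for the sums -/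
theorem baseAT (k : ℕ) (ε : ℝ) (hε : 0 < ε) : ∃ w : ℕ, 3 ≤ w ∧ ∃ κ₀ : ℝ, 0 < κ₀ ∧ ∀ κ : ℝ, 0 < κ → κ ≤ κ₀ →
    ∃ Λ : ℝ, 0 < Λ ∧ ∀ᶠ N : ℕ in atTop, ∀ y : ℕ, (y : ℝ) < (N : ℝ) ^ κ → (N : ℝ) ^ κ ≤ y + 1 →
    ∀ H : ℕ, Λ * Real.log N ≤ H → H ≤ N → ∀ P ⊆ (Icc 1 N).filter Nat.Prime,
    ∀ Bad : Finset (Finset ℕ), (∀ D ∈ Bad, D ∈ (Icc 1 H).powersetCard k ∧
      ∑ p ∈ P, ∏ t ∈ D, ro y (p + t) < GG w y ^ k *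
        (1 / 4 * ((P.filter (fun p => ∀ t ∈ D, Ro w (p + t))).card : ℝ) - ε * Vz w ^ k * (N / Real.log N))) →
    (Bad.card : ℝ) ≤ ε * (Vz w * H) ^ k :=
  baseAT_of baseRT (fun k w y N H hw hwy G E hE f hf hfw h => sumRT k w y N H hw hwy G E hE f hf hfw h) Vz_low k ε hε

open Classical in
/-- the sharp density, for maps -/
theorem sharp_maps (k : ℕ) (hk : 1 ≤ k)
    (hAB : ∀ w : ℕ, ∃ H₀ : ℕ, ∀ H b : ℕ, H₀ ≤ H → 1 / 2 * Vz w * H ≤ (AB w b H).card ∧ ((AB w b H).card : ℝ) ≤ H) :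
    ∃ c : ℝ, 0 < c ∧ ∀ (δ : ℝ), 0 < δ → δ ≤ 1 → ∀ w : ℕ, 3 ≤ w → ∃ N₀ : ℕ, ∀ N H : ℕ, N₀ ≤ N → N₀ ≤ H →
    ∀ P ⊆ (Icc 1 N).filter Nat.Prime, δ * (N / Real.log N) ≤ P.card →
    ∀ b : ℕ → ℕ, (∀ p ∈ P, ∀ q ∈ P, (b p : ℤ) - b q = p - q ∨ (b p : ℤ) - b q = q - p) →
    c * (H / Real.log (Real.log (16 / δ))) ^ k ≤ (((Fintype.piFinset (fun _ : Fin k => Icc 1 H)).filter (fun d =>
      1 / 2 * (1 / 2 * Vz w) ^ k * (P.card : ℝ) ≤ ∑ p ∈ P, ∏ i, ro w (b p + d i))).card : ℝ) :=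
  Pool.Agent.J4.H46.GD.sharp_maps Pool.Agent.J4.H71.SD.pair_cnt Pool.Agent.J4.H71.SD.VT_pair
    Pool.Agent.J4.H56.GD3.tau_mom k hk hAB

open Classical in
theorem maps_sets (k : ℕ) (hk : 1 ≤ k) (c : ℝ) (hc : 0 < c) : ∃ H₀ : ℕ, ∀ H : ℕ, H₀ ≤ H → ∀ F : Finset ℕ → Prop,
    ∀ S : Finset (Fin k → ℕ), (∀ d ∈ S, (∀ i, d i ∈ Icc 1 H) ∧ F (univ.image d)) → c * (H : ℝ) ^ k ≤ S.card →
    c / (2 * k.factorial) * (H : ℝ) ^ k ≤ (((Icc 1 H).powersetCard k).filter F).card :=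
  Pool.Agent.J4.H40.GD.maps_sets k hk c hc

end Pool.Agent.J4.H38.GD
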