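import Mathlib
import Pool.Agent.J4.H38.GD.All
import Pool.Agent.J4.H38.DV.Fin

/-! Project GD: the main theorem for the differences `m - p`. -/

set_option autoImplicit false

namespace Pool.Agent.J4.H38.GD

open Finset Filter
open Pool.Agent.Y822
open Pool.Agent.Y822.Low (step_lower')
open Pool.Agent.J4.H38.SR
open Pool.Agent.J4.H38.SR2
open Pool.Agent.J4.H38.SR3
open Pool.Agent.J4.H38.DV
open Pool.Agent.H387R2.Uni (nuT Adm locT CT CT_nonneg)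
open Pool.Agent.H373R2.T7 (pz Vz mem_pz rhoA PerA lam_fund)

lemma Vz_le_one (w : ℕ) : Vz w ≤ 1 := by
  unfold Vz
  refine prod_le_one (fun p hp => ?_) fun p hp => ?_
  · have hp1 : (1 : ℝ) ≤ p := by exact_mod_cast (mem_pz.1 hp).2.one_lt.le
    have : 1 / (p : ℝ) ≤ 1 := by rw [div_le_one (by linarith)]; exact hp1
    linarith
  · have : 0 ≤ 1 / (p : ℝ) := by positivity
    linarith

/-- numerical lemma: `v = Vz w`, `q` the number of the compatible elements -/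
lemma calcA {k : ℕ} {cs c0 L n u G v q W x P ε ε₁ : ℝ} (hcs : 0 < cs) (hc0 : 0 < c0) (hL : 1 ≤ L) (hn : 0 ≤ n)
    (hv : 0 < v) (hq : 0 ≤ q) (hε₁ : 0 < ε₁) (hu0 : 0 ≤ u) (hu1 : u ≤ 1) (hG : 0 ≤ G)
    (huG : cs / (L * v) ≤ u * G) (huG2 : u * G ≤ 2 * c0 / (L * v))
    (hε₁' : (2 * c0) ^ (k + 1) * ε₁ ≤ 1 / 2 * ((cs / 16) ^ (k + 1) * ε))
    (hW : G ^ (k + 1) * (1 / 4 * q - ε₁ * v ^ (k + 1) * (n / L)) - 1 ≤ W)
    (h1 : 1 ≤ 1 / 4 * ((cs / 16) ^ (k + 1) * ε) * (n / L ^ (k + 2)))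
    (hx : (k + 1) * x ≤ 1 / 4 * ((cs / 16) ^ (k + 1) * ε) * (n / L ^ (k + 2)))
    (hP : u ^ (k + 1) * W - (k + 1) * x ≤ P) :
    (cs / 16) ^ (k + 1) * (((1 / v) ^ (k + 1) * q - ε * (n / L)) / L ^ (k + 1)) ≤ P := by
  have hL0 : 0 < L := by linarith
  obtain ⟨c, hc⟩ : ∃ c : ℝ, c = (cs / 16) ^ (k + 1) := ⟨_, rfl⟩
  rw [← hc] at hε₁' h1 hx ⊢
  have hc1 : 0 < c := by rw [hc]; positivity
  obtain ⟨X, hX⟩ : ∃ X : ℝ, X = n / L ^ (k + 2) := ⟨_, rfl⟩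
  have hX0 : 0 ≤ X := by rw [hX]; positivity
  rw [← hX] at h1 hx
  have g1 : u ^ (k + 1) * (G ^ (k + 1) * (1 / 4 * q - ε₁ * v ^ (k + 1) * (n / L)) - 1) ≤ u ^ (k + 1) * W :=
    mul_le_mul_of_nonneg_left hW (pow_nonneg hu0 _)
  have g2 : u ^ (k + 1) ≤ 1 := pow_le_one₀ hu0 hu1
  have g3 : (cs / (L * v)) ^ (k + 1) ≤ (u * G) ^ (k + 1) := pow_le_pow_left₀ (by positivity) huG _
  have g4 : (u * G) ^ (k + 1) ≤ (2 * c0 / (L * v)) ^ (k + 1) := pow_le_pow_left₀ (mul_nonneg hu0 hG) huG2 _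
  -- main term
  have g5 : c * ((1 / v) ^ (k + 1) * q / L ^ (k + 1)) ≤ (u * G) ^ (k + 1) * (1 / 4 * q) := by
    have h2 : c ≤ 1 / 4 * cs ^ (k + 1) := by
      have h3 : (1 / 16 : ℝ) ^ (k + 1) ≤ 1 / 16 := by
        calc (1 / 16 : ℝ) ^ (k + 1) ≤ (1 / 16) ^ 1 := pow_le_pow_of_le_one (by norm_num) (by norm_num) (by omega)
          _ = _ := pow_one _
      have h4 : c = (1 / 16 : ℝ) ^ (k + 1) * cs ^ (k + 1) := by rw [hc, ← mul_pow]; ring
      have h5 : 0 < cs ^ (k + 1) := by positivity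
      rw [h4]
      nlinarith
    calc c * ((1 / v) ^ (k + 1) * q / L ^ (k + 1)) ≤ 1 / 4 * cs ^ (k + 1) * ((1 / v) ^ (k + 1) * q / L ^ (k + 1)) :=
          mul_le_mul_of_nonneg_right h2 (by positivity)
      _ = (cs / (L * v)) ^ (k + 1) * (1 / 4 * q) := by
          rw [div_pow 1 v, one_pow, div_pow cs, mul_pow L v]
          field_simp
      _ ≤ _ := mul_le_mul_of_nonneg_right g3 (by positivity)
  -- error
  have g6 : (u * G) ^ (k + 1) * (ε₁ * v ^ (k + 1) * (n / L)) ≤ 1 / 2 * (c * ε) * X := by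
    calc (u * G) ^ (k + 1) * (ε₁ * v ^ (k + 1) * (n / L)) ≤
          (2 * c0 / (L * v)) ^ (k + 1) * (ε₁ * v ^ (k + 1) * (n / L)) := mul_le_mul_of_nonneg_right g4 (by positivity)
      _ = (2 * c0) ^ (k + 1) * ε₁ * X := by
          rw [hX, div_pow (2 * c0), mul_pow L v, show k + 2 = (k + 1) + 1 by ring, pow_succ L (k + 1)]
          field_simp
      _ ≤ _ := mul_le_mul_of_nonneg_right hε₁' hX0
  have g7 : u ^ (k + 1) * (G ^ (k + 1) * (1 / 4 * q - ε₁ * v ^ (k + 1) * (n / L)) - 1) =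
      (u * G) ^ (k + 1) * (1 / 4 * q) - (u * G) ^ (k + 1) * (ε₁ * v ^ (k + 1) * (n / L)) - u ^ (k + 1) := by
    rw [mul_pow]; ring
  rw [g7] at g1
  have g8 : c * (((1 / v) ^ (k + 1) * q - ε * (n / L)) / L ^ (k + 1)) =
      c * ((1 / v) ^ (k + 1) * q / L ^ (k + 1)) - c * ε * X := by
    rw [hX, show k + 2 = (k + 1) + 1 by ring, pow_succ L (k + 1)]
    field_simp
  rw [g8]
  linarith

open Classical in
/-- the number of the elements of `P` compatible with `D` at the primes `≤ w` -/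
noncomputable def cmp (w N : ℕ) (P D : Finset ℕ) : ℕ := (P.filter (fun p => ∀ t ∈ D, Ro w (N - p + t))).card

/-- an odd difference -/
lemma cmp_odd {w N : ℕ} (hw : 2 ≤ w) {P D : Finset ℕ} (hP : P ⊆ (Icc 1 N).filter Nat.Prime) {d : ℕ} (hd : d ∈ D)
    (hodd : ¬ Even (d + N)) : cmp w N P D ≤ 1 := by
  classical
  unfold cmp
  have h1 : P.filter (fun p => ∀ t ∈ D, Ro w (N - p + t)) ⊆ {2} := by
    intro p hp
    rw [mem_filter] at hp
    rw [mem_singleton]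
    obtain ⟨h2, h3⟩ := mem_filter.1 (hP hp.1)
    by_contra hne
    have hpo : p % 2 = 1 := (Nat.Prime.eq_two_or_odd h3).resolve_left hne
    have h4 := hp.2 d hd 2 Nat.prime_two hw
    have h5 := (mem_Icc.1 h2).2
    rw [Nat.even_iff] at hodd
    apply h4
    omega
  exact (card_le_card h1).trans (card_singleton 2).le

/-- **arbitrary sets of primes** -/
theorem anyG : ∃ c : ℝ, 0 < c ∧ ∀ (k : ℕ) (ε : ℝ), 0 < ε → ∃ w : ℕ, 3 ≤ w ∧ ∃ Λ : ℝ, 0 < Λ ∧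
    ∀ᶠ N : ℕ in atTop, ∀ H : ℕ, Λ * Real.log N ≤ H → H ≤ N →
    ∀ P ⊆ (Icc 1 N).filter Nat.Prime,
    ∀ Bad : Finset (Finset ℕ), (∀ D ∈ Bad, D ∈ (Icc 1 H).powersetCard (k + 1) ∧
      (piD P D N : ℝ) < c ^ (k + 1) * (((1 / Vz w) ^ (k + 1) * cmp w N P D - ε * (N / Real.log N)) /
        Real.log N ^ (k + 1))) →
    (Bad.card : ℝ) ≤ ε * (Vz w * H) ^ (k + 1) := by
  classical
  obtain ⟨c₀', hc₀', STEP⟩ := stepR
  obtain ⟨cz, hcz, VZ⟩ := Vz_sharp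
  obtain ⟨c₀, hc₀d⟩ : ∃ c₀ : ℝ, c₀ = min c₀' 1 := ⟨_, rfl⟩
  have hc₀ : 0 < c₀ := by rw [hc₀d]; exact lt_min hc₀' one_pos
  have hc₀1 : c₀ ≤ 1 := by rw [hc₀d]; exact min_le_right _ _
  have hc₀2 : c₀ ≤ c₀' := by rw [hc₀d]; exact min_le_left _ _
  obtain ⟨cs, hcs⟩ : ∃ cs : ℝ, cs = min (c₀ * cz / 2) 1 := ⟨_, rfl⟩
  have hcs0 : 0 < cs := by rw [hcs]; exact lt_min (by positivity) one_pos
  have hcs1 : cs ≤ 1 := by rw [hcs]; exact min_le_right _ _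
  have hcs2 : cs ≤ c₀ * cz / 2 := by rw [hcs]; exact min_le_left _ _
  refine ⟨cs / 16, by positivity, fun k ε hε => ?_⟩
  obtain ⟨ce, hce⟩ : ∃ ce : ℝ, ce = (cs / 16) ^ (k + 1) * ε := ⟨_, rfl⟩
  have hce0 : 0 < ce := by rw [hce]; positivity
  obtain ⟨ε₁, hε₁d⟩ : ∃ ε₁ : ℝ, ε₁ = min (ε / 3) (1 / 2 * ce / (2 * c₀) ^ (k + 1)) := ⟨_, rfl⟩
  have hε₁ : 0 < ε₁ := by rw [hε₁d]; exact lt_min (by linarith) (by positivity)
  have hε₁a : ε₁ ≤ ε / 3 := by rw [hε₁d]; exact min_le_left _ _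
  have hε₁b : (2 * c₀) ^ (k + 1) * ε₁ ≤ 1 / 2 * ce := by
    have h1 : ε₁ ≤ 1 / 2 * ce / (2 * c₀) ^ (k + 1) := by rw [hε₁d]; exact min_le_right _ _
    rw [le_div_iff₀ (by positivity)] at h1
    linarith
  obtain ⟨w, hw, κ₀, hκ₀, hbase⟩ := baseA (k + 1) ε₁ hε₁
  refine ⟨w, hw, ?_⟩
  obtain ⟨v, hv⟩ : ∃ v : ℝ, v = Vz w := ⟨_, rfl⟩
  have hv0 : 0 < v := by rw [hv]; exact Vz_pos' w
  have hv1 : v ≤ 1 := by rw [hv]; exact Vz_le_one w
  rw [← hv] at hbase ⊢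
  obtain ⟨ε', hε'⟩ : ∃ ε' : ℝ, ε' = ε / 3 * v ^ (k + 1) := ⟨_, rfl⟩
  have hε'0 : 0 < ε' := by rw [hε']; positivity
  obtain ⟨δ, hδ⟩ : ∃ δ : ℝ, δ = ce / (16 * (k + 1)) := ⟨_, rfl⟩
  have hδ0 : 0 < δ := by rw [hδ]; positivity
  choose Cj hCj havg using avgG
  obtain ⟨Cv, hCv⟩ : ∃ Cv : ℝ, Cv = ∑ j ∈ range (k + 3), Cj j := ⟨_, rfl⟩
  have hCv1 : ∀ j ≤ k + 2, Cj j ≤ Cv := fun j hj => by
    rw [hCv]
    exact single_le_sum (f := Cj) (fun i _ => (hCj i).le) (mem_range.2 (by omega))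
  have hCv0 : 0 < Cv := lt_of_lt_of_le (hCj 0) (hCv1 0 (by omega))
  obtain ⟨κ, Λ₁, hκ, hκκ, hκ25, hΛ₁, hfew⟩ := few_R k 1 (δ := δ)
    (ε' := ε') (κm := κ₀) (Cv := Cv) hδ0 hε'0 hκ₀ hCv0
  obtain ⟨Λ₂, hΛ₂, hbase⟩ := hbase κ hκ hκκ
  obtain ⟨N₁, STEP⟩ := STEP κ hκ hκ25
  obtain ⟨M, hM⟩ : ∃ M : ℕ, M = w + 2 * (k + 2) ^ 2 + 5 := ⟨_, rfl⟩
  refine ⟨max (max Λ₁ Λ₂) 1, lt_max_of_lt_right one_pos, ?_⟩
  obtain ⟨τ, hτ⟩ : ∃ τ : ℝ, τ = 1 / 4 * ce := ⟨_, rfl⟩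
  obtain ⟨τ', hτ'⟩ : ∃ τ' : ℝ, τ' = ε * v ^ (k + 1) := ⟨_, rfl⟩
  have hτ'0 : 0 < τ' := by rw [hτ']; positivity
  have hτ0 : 0 < τ := by rw [hτ]; positivity
  filter_upwards [hbase, hfew, ev_logN (eventually_ge_atTop (max 3 ((M + 2) * (2 / κ)))),
    ev_small (k + 2) (by norm_num : (0 : ℝ) < 1 / 7) 12 hδ0,
    eventually_ge_atTop (max N₁ 3),
    ev_small (k + 2) (by norm_num : (0 : ℝ) < 1) 1 hτ0,
    ev_small (k + 2) (by norm_num : (0 : ℝ) < 1) 1 hτ'0,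
    few_top k hε'0]
    with N hbase hfew hL1' hs8 hN hs1 hs1' htop
  intro H hH1' hHN P hP Bad hBad
  have hNN₁ : N₁ ≤ N := (le_max_left _ _).trans hN
  have hN3 : 3 ≤ N := (le_max_right _ _).trans hN
  have hN2 : 2 ≤ N := by omega
  set L := Real.log N with hLd
  have hL3 : 3 ≤ L := (le_max_left _ _).trans hL1'
  have hL1 : 1 ≤ L := by linarith
  have hLM : (M + 2) * (2 / κ) ≤ L := (le_max_right _ _).trans hL1'
  have hL0 : 0 < L := by linarith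
  have hH1 : Λ₁ * L ≤ H := (mul_le_mul_of_nonneg_right ((le_max_left _ _).trans (le_max_left _ _)) hL0.le).trans hH1'
  have hH2 : Λ₂ * L ≤ H := (mul_le_mul_of_nonneg_right ((le_max_right _ _).trans (le_max_left _ _)) hL0.le).trans hH1'
  have hHL : L ≤ H := by
    have := (mul_le_mul_of_nonneg_right (le_max_right (max Λ₁ Λ₂) 1) hL0.le).trans hH1'
    linarith
  have hH3 : 3 ≤ H := by exact_mod_cast hL3.trans hHL
  have hN0 : (0 : ℝ) < N := by positivity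
  have hNe : (N : ℝ) = Real.exp L := by rw [hLd, Real.exp_log hN0]
  have hrp : ∀ s : ℝ, (N : ℝ) ^ s = Real.exp (s * L) := by
    intro s
    rw [Real.rpow_def_of_pos hN0, ← hLd, mul_comm]
  -- the even shifts
  have hev : ∀ D ∈ Bad, ∀ d ∈ D, Even (d + N) := by
    intro D hD d hd
    by_contra hodd
    have h1 := cmp_odd (w := w) (by omega) hP hd hodd
    have h2 := (hBad D hD).2
    have h3 : (0 : ℝ) ≤ piD P D N := Nat.cast_nonneg _
    have h4 : (cmp w N P D : ℝ) ≤ 1 := by exact_mod_cast h1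
    rw [sub_self, zero_mul, Real.exp_zero, mul_one] at hs1'
    have h5 : (N : ℝ) / L ^ (k + 2) ≤ N / L := by
      refine div_le_div_of_nonneg_left hN0.le hL0 ?_
      calc L = L ^ 1 := (pow_one _).symm
        _ ≤ L ^ (k + 2) := pow_le_pow_right₀ hL1 (by omega)
    have h6 : 1 ≤ ε * v ^ (k + 1) * (N / L) := by
      calc (1 : ℝ) ≤ τ' * (N / L ^ (k + 2)) := hs1'
        _ ≤ τ' * (N / L) := mul_le_mul_of_nonneg_left h5 hτ'0.le
        _ = _ := by rw [hτ']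
    have h7 : (1 / v) ^ (k + 1) * (cmp w N P D : ℝ) ≤ ε * (N / L) := by
      calc (1 / v) ^ (k + 1) * (cmp w N P D : ℝ) ≤ (1 / v) ^ (k + 1) * (ε * v ^ (k + 1) * (N / L)) :=
            mul_le_mul_of_nonneg_left (h4.trans h6) (by positivity)
        _ = _ := by rw [div_pow, one_pow]; field_simp
    have h8 : (cs / 16) ^ (k + 1) * (((1 / v) ^ (k + 1) * cmp w N P D - ε * (N / L)) / L ^ (k + 1)) ≤ 0 :=
      mul_nonpos_of_nonneg_of_nonpos (by positivity) (div_nonpos_of_nonpos_of_nonneg (by linarith) (by positivity))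
    linarith
  -- the sifting limit
  obtain ⟨y, hy⟩ : ∃ y : ℕ, y + 1 = ⌈(N : ℝ) ^ κ⌉₊ := by
    have : 0 < ⌈(N : ℝ) ^ κ⌉₊ := Nat.ceil_pos.2 (by positivity)
    exact ⟨⌈(N : ℝ) ^ κ⌉₊ - 1, by omega⟩
  have hya : (y : ℝ) < (N : ℝ) ^ κ := Nat.lt_ceil.1 (by omega)
  have hyb : (N : ℝ) ^ κ ≤ y + 1 := by
    have := Nat.le_ceil ((N : ℝ) ^ κ)
    rw [← hy] at this
    exact_mod_cast this
  have hya' : (y : ℝ) ≤ Real.exp (κ * L) := by rw [← hrp]; exact hya.le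
  have hyb' : Real.exp (κ * L) ≤ y + 1 := by rw [← hrp]; exact hyb
  have hML : (M : ℝ) + 2 ≤ κ / 2 * L := by
    have h1 : (M : ℝ) + 2 = κ / 2 * ((M + 2) * (2 / κ)) := by field_simp
    rw [h1]
    exact mul_le_mul_of_nonneg_left hLM (by positivity)
  obtain ⟨_, _, y3, y4, _, y6⟩ := y_core (M := M) hκ (by omega : 1 ≤ N) hML hya' hyb'
  have hyw : w ≤ y := by omega
  have hy3 : 3 ≤ y := by omega
  have hy0 : (0 : ℝ) < y := by positivity
  -- the factor of one step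
  obtain ⟨u, hu⟩ : ∃ u : ℝ, u = c₀ * κ := ⟨_, rfl⟩
  have hu0 : 0 ≤ u := by rw [hu]; positivity
  have hu1 : u ≤ 1 := by rw [hu]; exact mul_le_one₀ hc₀1 hκ.le (by linarith)
  have hVz0 : 0 ≤ Vz y := (Vz_pos' y).le
  have hly : 0 < Real.log y := Real.log_pos (by exact_mod_cast (by omega : 1 < y))
  have hlyu : Real.log y ≤ κ * L := by
    rw [← Real.log_exp (κ * L)]
    exact Real.log_le_log hy0 hya'
  have hgg := gg_bd2 w y (by omega) hyw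
  rw [← hv] at hgg
  have hG0 : 0 ≤ GG w y := le_trans (by positivity) hgg.1
  have huG : cs / (L * v) ≤ u * GG w y := by
    have t5 : cz / (κ * L) ≤ Vz y := (div_le_div_of_nonneg_left hcz.le hly hlyu).trans (VZ y hy3)
    have t6 : cz / (κ * L) / v ≤ Vz y / v := div_le_div_of_nonneg_right t5 hv0.le
    calc cs / (L * v) ≤ c₀ * cz / 2 / (L * v) := div_le_div_of_nonneg_right hcs2 (by positivity)
      _ = u * (1 / 2 * (cz / (κ * L) / v)) := by rw [hu]; field_simp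
      _ ≤ u * GG w y := mul_le_mul_of_nonneg_left (by linarith [hgg.1]) hu0
  have huG2 : u * GG w y ≤ 2 * c₀ / (L * v) := by
    have t5 : Vz y ≤ 2 / (κ * L) := by
      refine (Vz_le y (by omega)).trans ?_
      rw [div_le_div_iff₀ hly (by positivity)]
      linarith
    have t6 : Vz y / v ≤ 2 / (κ * L) / v := div_le_div_of_nonneg_right t5 hv0.le
    calc u * GG w y ≤ u * (2 / (κ * L) / v) := mul_le_mul_of_nonneg_left (hgg.2.trans t6) hu0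
      _ = _ := by rw [hu]; field_simp
  -- the error of one step
  obtain ⟨X, hX⟩ : ∃ X : ℝ, X = N / L ^ (k + 2) := ⟨_, rfl⟩
  have hX0 : 0 < X := by rw [hX]; positivity
  have h78 : 12 * (N : ℝ) ^ (6 / 7 : ℝ) ≤ δ * X := by
    rw [hrp, hX]
    have e : (6 / 7 : ℝ) * L = (1 - 1 / 7) * L := by ring
    rw [e]
    exact hs8
  have hx0 : 0 ≤ 4 * δ * X := by positivity
  -- the base point
  obtain ⟨b, hb, hHb⟩ := base_exists N y H hHN
  obtain ⟨A, hA⟩ : ∃ A : Finset ℕ, A = (Icc 1 H).filter (fun d => Even (d + N) ∧ Lo N d) := ⟨_, rfl⟩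
  have hAm : ∀ d, d ∈ A ↔ (1 ≤ d ∧ d ≤ H) ∧ Even (d + N) ∧ Lo N d := by
    intro d
    rw [hA, mem_filter, mem_Icc]
  have hAsub : A ⊆ Icc 1 H := fun d hd => mem_Icc.2 ((hAm d).1 hd).1
  -- the three kinds of exceptional sets
  obtain ⟨B1, hB1⟩ : ∃ B1, B1 = Bad.filter (fun D => ∑ p ∈ P, ∏ t ∈ D, ro y (N - p + t) <
    GG w y ^ (k + 1) * (1 / 4 * (cmp w N P D : ℝ) - ε₁ * v ^ (k + 1) * (N / L))) := ⟨_, rfl⟩
  obtain ⟨B2, hB2⟩ : ∃ B2, B2 = Bad.filter (fun D => ¬ ∀ d ∈ D, Lo N d) := ⟨_, rfl⟩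
  obtain ⟨B3, hB3⟩ : ∃ B3, B3 = (Bad.filter (fun D => ∀ d ∈ D, Lo N d)).filter (fun D =>
    ¬ (∑ p ∈ P, ∏ t ∈ D, ro y (N - p + t) <
      GG w y ^ (k + 1) * (1 / 4 * (cmp w N P D : ℝ) - ε₁ * v ^ (k + 1) * (N / L)))) := ⟨_, rfl⟩
  have hcov : Bad.card ≤ B1.card + B2.card + B3.card := by
    have h1 : Bad ⊆ (B1 ∪ B2) ∪ B3 := by
      intro D hD
      rw [mem_union, mem_union, hB1, hB2, hB3, mem_filter, mem_filter, mem_filter, mem_filter]
      tauto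
    exact (card_le_card h1).trans ((card_union_le _ _).trans (Nat.add_le_add_right (card_union_le _ _) _))
  have hvH : ε / 3 * (v * H) ^ (k + 1) = ε' * (H : ℝ) ^ (k + 1) := by rw [hε', mul_pow]; ring
  have hc1 : (B1.card : ℝ) ≤ ε / 3 * (v * H) ^ (k + 1) := by
    refine (hbase y hya hyb H hH2 hHN P hP B1 fun D hD => ?_).trans
      (mul_le_mul_of_nonneg_right hε₁a (by positivity))
    rw [hB1, mem_filter] at hD
    exact ⟨(hBad D hD.1).1, hD.2⟩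
  have hc2 : (B2.card : ℝ) ≤ ε / 3 * (v * H) ^ (k + 1) := by
    rw [hvH]
    refine htop H hHN B2 fun D hD => ?_
    rw [hB2, mem_filter] at hD
    have h1 := hD.2
    push Not at h1
    obtain ⟨d, hd, h2⟩ := h1
    exact ⟨(hBad D hD.1).1, d, hd, h2⟩
  suffices hc3 : (B3.card : ℝ) ≤ ε' * (H : ℝ) ^ (k + 1) by
    have h4 : (Bad.card : ℝ) ≤ B1.card + B2.card + B3.card := by exact_mod_cast hcov
    rw [← hvH] at hc3
    linarith
  refine hfew y hya hyb A {b} ((Icc 1 N).filter (fun n => 1 ≤ N - n ∧ N - n ≤ y)) (card_singleton b)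
    (singleton_nonempty b) (X0_card N y) ?_ ?_ ?_ (eD P N) (eD_bd P N)
    (fun n hn hn0 => (eD_le_eG hP n).trans (eG_le hb n hn hn0)) (g2 N) ?_ H hH1 ?_ ?_ B3 ?_
  · rw [disjoint_singleton_left, hAm]
    omega
  · intro a ha
    exact ((hAm a).1 ha).2.2
  · have hev : ∀ a ∈ A ∪ {b}, Even (a + N) := by
      intro a ha
      rcases mem_union.1 ha with h | h
      · exact ((hAm a).1 h).2.1
      · rw [mem_singleton.1 h]
        exact even_iff_two_dvd.2 (hb 2 (mem_pz.2 ⟨by omega, Nat.prime_two⟩))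
    intro a ha t ht
    have h1 := hev a ha
    have h2 := hev t ht
    rw [Nat.even_iff] at h1 h2 ⊢
    omega
  · intro n
    refine ⟨(g2_bd N n).1, g2_le_ro ?_ n⟩
    refine hya.trans_le (Real.rpow_le_rpow_of_exponent_le (by exact_mod_cast (by omega : 1 ≤ N)) ?_)
    linarith
  · refine (card_le_card hAsub).trans ?_
    rw [Nat.card_Icc, Nat.add_sub_cancel]
  · intro j hj
    have h0 : ∑ S ∈ A.powersetCard j, VT y ({b} ∪ S) ≤ ∑ S ∈ (Icc 1 H).powersetCard j, VT y ({b} ∪ S) :=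
      sum_le_sum_of_subset_of_nonneg (powersetCard_mono hAsub) fun S _ _ => VT_nonneg _ _
    refine h0.trans ?_
    have h1 := havg j N H y b hH3 hHN hHL ?_ hb
    · refine h1.trans ?_
      have h2 : (κ / 2 * L) ^ (j + 1) ≤ Real.log y ^ (j + 1) :=
        pow_le_pow_left₀ (by positivity) y4 _
      have h3 : (H : ℝ) ^ j / Real.log y ^ (j + 1) ≤ (H : ℝ) ^ j / (κ / 2 * L) ^ (j + 1) :=
        div_le_div_of_nonneg_left (by positivity) (by positivity) h2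
      have h4 : (H : ℝ) ^ j / (κ / 2 * L) ^ (j + 1) = (2 / κ) ^ (j + 1) * ((H : ℝ) ^ j / L ^ (j + 1)) := by
        rw [mul_pow, div_pow, div_pow]
        field_simp
      calc Cj j * ((H : ℝ) ^ j / Real.log y ^ (j + 1)) ≤ Cv * ((H : ℝ) ^ j / (κ / 2 * L) ^ (j + 1)) :=
            mul_le_mul (hCv1 j hj) h3 (by positivity) hCv0.le
        _ = _ := by rw [h4]; ring
    · have h5 : j ^ 2 ≤ (k + 2) ^ 2 := Nat.pow_le_pow_left hj 2
      omega
  · intro D hD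
    rw [hB3, mem_filter, mem_filter] at hD
    obtain ⟨⟨hDB, hlo⟩, hnb⟩ := hD
    obtain ⟨b1, b3⟩ := hBad D hDB
    rw [mem_powersetCard] at b1
    refine ⟨?_, fun hg => ?_⟩
    · rw [mem_powersetCard]
      exact ⟨fun d hd => (hAm d).2 ⟨mem_Icc.1 (b1.1 hd), hev D hDB d hd, hlo d hd⟩, b1.2⟩
    have hDN : ∀ h ∈ D, h ≤ N := fun h hh => ((mem_Icc.1 (b1.1 hh)).2).trans hHN
    -- one step
    have hZ : ∀ t ∈ D, ∀ S1 ⊆ D.erase t,
        u * ∑ n ∈ Icc 1 N, WH (eD P N) (g2 N) (ro y) (D.erase t) S1 n * ro y (n + t) - 4 * δ * X ≤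
          ∑ n ∈ Icc 1 N, WH (eD P N) (g2 N) (ro y) (D.erase t) S1 n * g2 N (n + t) := by
      intro t ht S1 hS1
      set f := WH (eD P N) (g2 N) (ro y) (D.erase t) S1 with hf
      have hf01 : ∀ n, 0 ≤ f n ∧ f n ≤ 1 := WH_bd (eD_bd P N) (g2_bd N) (ro_bd y) _ _
      have hgood := hg t ht S1 hS1
      rw [← hf, show k + 1 + 1 = k + 2 by ring, ← hX] at hgood
      have hs := STEP N hNN₁ y hyb f (fun n => (hf01 n).1) (fun n => (hf01 n).2) t (hDN t ht)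
      have hW0 : 0 ≤ ∑ n ∈ Icc 1 N, f n * ro y (n + t) :=
        sum_nonneg fun n _ => mul_nonneg (hf01 n).1 (ro_nonneg _ _)
      have h5 : u * ∑ n ∈ Icc 1 N, f n * ro y (n + t) ≤
          c₀' * κ * ∑ n ∈ Icc 1 N, f n * ro y (n + t) := by
        rw [hu]
        exact mul_le_mul_of_nonneg_right (mul_le_mul_of_nonneg_right hc₀2 hκ.le) hW0
      linarith
    have hlower := step_lower' (H := D) hx0 hu0 hu1 hZ D (subset_refl _)
    rw [b1.2] at hlower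
    have hrefl := refl_le hP y D
    have hfull := WH_full_leD P N y D
    have hfin := calcA (k := k) (cs := cs) (c0 := c₀) (L := L) (n := N) (u := u) (G := GG w y) (v := v)
      (q := (cmp w N P D : ℝ)) (W := ∑ n ∈ Icc 1 N, WH (eD P N) (g2 N) (ro y) D ∅ n) (x := 4 * δ * X)
      (P := piD P D N) (ε := ε) (ε₁ := ε₁)
      hcs0 hc₀ hL1 hN0.le hv0 (Nat.cast_nonneg _) hε₁ hu0 hu1 hG0 huG huG2 (by rw [← hce]; exact hε₁b)
      (by linarith [not_lt.1 hnb]) ?_ ?_ (by push_cast at hlower; linarith)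
    · linarith
    · rw [← hce, ← hτ]
      rw [sub_self, zero_mul, Real.exp_zero, mul_one] at hs1
      exact hs1
    · rw [← hce, ← hX, hδ]
      apply le_of_eq
      field_simp
      norm_num

end Pool.Agent.J4.H38.GD
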