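import Mathlib
import Pool.Agent.J4.H38.GD.Defs
import Pool.Agent.J4.H38.DV.TDefs
import Pool.Agent.J4.H38.DV.Base

/-! Project GD (helper38), pieces BR and BRT (helper30): the base in one residue class, assembled from the statements of the other
pieces; one proof for `Fs` (differences) and `Ft` (sums). -/

set_option autoImplicit false

namespace Pool.Agent.J4.H38.GD

open Finset Filter
open Pool.Agent.Y822
open Pool.Agent.J4.H38.SR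
open Pool.Agent.J4.H38.SR2
open Pool.Agent.J4.H38.DV
open Pool.Agent.H373R2.T7 (pz Vz mem_pz rhoA PerA lam_fund)

/-- statement of `av1` -/
def S_av1 : Prop := ∀ (C : ℝ), 0 ≤ C → ∃ (C' : ℝ) (w₀ : ℕ), 0 < C' ∧ 2 ≤ w₀ ∧ ∀ w : ℕ, w₀ ≤ w → ∀ᶠ N : ℕ in atTop,
    ∀ H y M : ℕ, Real.log N ≤ H → H ≤ N → M ≤ N →
    ∑ t ∈ Icc 1 H, (∏ p ∈ (pz y).filter (fun p => w < p ∧ p ∣ M + t), (1 + C / (p : ℝ)) - 1) ≤ C' / w * H ∧
    ∀ s ∈ Icc 1 H, ∑ t ∈ (Icc 1 H).erase s,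
      (∏ p ∈ (pz y).filter (fun p => w < p ∧ (p : ℤ) ∣ (s : ℤ) - t), (1 + C / (p : ℝ)) - 1) ≤ C' / w * H

/-- statement of `av2` -/
def S_av2 : Prop := ∀ k : ℕ, ∃ (C Ca : ℝ) (w₀ : ℕ), 0 < C ∧ 0 ≤ Ca ∧ 2 ≤ w₀ ∧ ∀ w : ℕ, w₀ ≤ w → ∀ (M y : ℕ) (A : Finset ℕ)
    (ζ : ℝ), w ≤ y → 0 ≤ ζ → ζ ≤ 1 →
    ∑ t ∈ A, (∏ p ∈ (pz y).filter (fun p => w < p ∧ p ∣ M + t), (1 + Ca / (p : ℝ)) - 1) ≤ ζ * A.card →
    (∀ s ∈ A, ∑ t ∈ A.erase s,
      (∏ p ∈ (pz y).filter (fun p => w < p ∧ (p : ℤ) ∣ (s : ℤ) - t), (1 + Ca / (p : ℝ)) - 1) ≤ ζ * A.card) →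
    ∀ j ≤ k, ∑ T ∈ A.powersetCard j, |Pw (QW (sh M T)) w y - GG w y ^ j| ≤ C * (ζ + 1 / w) * (GG w y * A.card) ^ j

/-- statement of `AB_card` -/
def S_AB : Prop := ∀ w : ℕ, ∃ H₀ : ℕ, ∀ H b : ℕ, H₀ ≤ H →
    1 / 2 * Vz w * H ≤ (AB w b H).card ∧ ((AB w b H).card : ℝ) ≤ H

/-- statement of `Vz_low` -/
def S_Vlow : Prop := ∃ c : ℝ, 0 < c ∧ ∀ w : ℕ, 3 ≤ w → c / Real.log w ≤ Vz w ∧ Vz w ≤ 1

/-- statement of `xcntR`, `xcntRT` -/
def S_xcnt (F : (ℕ → ℝ) → ℕ → ℕ → Finset ℕ → ℝ) (b : ℕ → ℕ → ℕ → ℕ) (s : ℕ → ℕ) : Prop :=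
  ∀ (k w : ℕ), 2 ≤ w → ∀ (η : ℝ), 0 < η → ∃ K : ℕ, 1 ≤ K ∧ ∀ U : ℕ, ∃ x0 : ℕ, ∀ᶠ N : ℕ in atTop,
    ∀ y : ℕ, x0 ≤ y → w ≤ y → y ^ K ≤ N → ∀ r : ℕ, (∀ p ∈ pz w, ¬ p ∣ r) → ∀ H : ℕ, ∀ T ⊆ AB w (b w r N) H, T.card ≤ k →
    |F (muR w r) N y T - N / phW w * Pw (QW (sh (s N) T)) w y| ≤
      η * (N / phW w * Pw (QW (sh (s N) T)) w y) + N / Real.log N ^ U

/-- statement of `stepD`, `stepDT` -/
def S_step (F : (ℕ → ℝ) → ℕ → ℕ → Finset ℕ → ℝ) : Prop := ∀ j : ℕ, ∃ C : ℝ, 0 < C ∧ ∀ (N y : ℕ) (A : Finset ℕ) (f μ : ℕ → ℝ),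
    (∀ m, 0 ≤ f m ∧ f m ≤ μ m) →
    ∀ (G η n e₀ : ℝ) (P : Finset ℕ → ℝ), 0 < G → G ≤ 1 → 0 < η → η ≤ 1 → 0 ≤ n → 0 ≤ e₀ → 1 ≤ η * (G * A.card) →
    e₀ ≤ η * (n * G ^ (j + 2)) → (∀ T ⊆ A, T.card ≤ j + 2 → 0 ≤ P T ∧ |F μ N y T - n * P T| ≤ η * (n * P T) + e₀) →
    (∀ i ≤ j + 2, ∑ T ∈ A.powersetCard i, |P T - G ^ i| ≤ η * (G * A.card) ^ i) →
    ∑ S ∈ A.powersetCard j, ∑ t ∈ A \ S, |F f N y (insert t S) - G * F f N y S| ≤
      C * Real.sqrt η * (n * (G * A.card) ^ (j + 1))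

lemma Pw_nonneg (Q : ℕ → ℕ → Prop) (w y : ℕ) : 0 ≤ Pw Q w y :=
  prod_nonneg fun p hp => (Pool.Agent.H373R2.T7.facA Q p (mem_pz.1 (mem_filter.1 hp).1).2).1

lemma phW_pos (w : ℕ) : 0 < phW w := by
  unfold phW
  refine prod_pos fun p hp => ?_
  have h1 := (mem_pz.1 hp).2.two_le
  have : (2 : ℝ) ≤ p := by exact_mod_cast h1
  linarith

/-- `log w ≤ c √w` for large `w` -/
lemma ev_log_sqrt (c : ℝ) (hc : 0 < c) : ∃ w₁ : ℕ, 3 ≤ w₁ ∧ ∀ w : ℕ, w₁ ≤ w → Real.log w ≤ c * (w : ℝ) ^ (1 / 2 : ℝ) := by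
  have h1 := (isLittleO_log_rpow_atTop (r := 1 / 2) (by norm_num)).bound hc
  have h2 := (tendsto_natCast_atTop_atTop (R := ℝ)).eventually h1
  obtain ⟨w₁, hw₁⟩ := eventually_atTop.1 h2
  refine ⟨max 3 w₁, le_max_left _ _, fun w hw => ?_⟩
  have h3 := hw₁ w ((le_max_right _ _).trans hw)
  have hw3 : 3 ≤ w := (le_max_left _ _).trans hw
  rwa [Real.norm_of_nonneg (Real.log_natCast_nonneg w),
    Real.norm_of_nonneg (Real.rpow_nonneg (Nat.cast_nonneg _) _)] at h3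

theorem base_gen (F : (ℕ → ℝ) → ℕ → ℕ → Finset ℕ → ℝ) (b : ℕ → ℕ → ℕ → ℕ) (s : ℕ → ℕ) (hs : ∀ N, s N ≤ N)
    (hav1 : S_av1) (hav2 : S_av2) (hAB : S_AB) (hVl : S_Vlow) (hgg : St_gg) (hx : S_xcnt F b s) (hstep : S_step F)
    (hchain : St_chain) (k : ℕ) : ∃ (C : ℝ) (w₀ : ℕ), 0 < C ∧ 3 ≤ w₀ ∧ ∀ w : ℕ, w₀ ≤ w → ∃ κ₀ : ℝ, 0 < κ₀ ∧
    ∀ κ : ℝ, 0 < κ → κ ≤ κ₀ →
    ∃ Λ : ℝ, 0 < Λ ∧ ∀ᶠ N : ℕ in atTop, ∀ y : ℕ, (y : ℝ) < (N : ℝ) ^ κ → (N : ℝ) ^ κ ≤ y + 1 →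
    ∀ H : ℕ, Λ * Real.log N ≤ H → H ≤ N → ∀ r : ℕ, (∀ p ∈ pz w, ¬ p ∣ r) → ∀ f : ℕ → ℝ, (∀ m, 0 ≤ f m ∧ f m ≤ muR w r m) →
    ∑ D ∈ (AB w (b w r N) H).powersetCard k, |F f N y D - GG w y ^ k * F f N y ∅| ≤
      C * (1 / (w : ℝ)) ^ (1 / 4 : ℝ) * (N / phW w * (GG w y * H) ^ k) := by
  classical
  choose Cj hCj hstep' using hstep
  obtain ⟨C, hC⟩ : ∃ C : ℝ, C = 1 + ∑ j ∈ range k, Cj j := ⟨_, rfl⟩
  have hC1 : ∀ j < k, Cj j ≤ C := by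
    intro j hj
    have h1 : Cj j ≤ ∑ j ∈ range k, Cj j :=
      single_le_sum (f := Cj) (fun i _ => (hCj i).le) (mem_range.2 hj)
    rw [hC]
    linarith
  have hC0 : 0 < C := by
    have h1 : 0 ≤ ∑ j ∈ range k, Cj j := sum_nonneg fun i _ => (hCj i).le
    rw [hC]
    linarith
  obtain ⟨C₂, Ca, w₂, hC₂, hCa, hw₂, hav2'⟩ := hav2 (k + 1)
  obtain ⟨C', w₁, hC', hw₁, hav1'⟩ := hav1 Ca hCa
  obtain ⟨cV, hcV, hVl'⟩ := hVl
  obtain ⟨c0, hc0, hV⟩ := Vz_sharp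
  -- `2 C' log w / (cV w) ≤ w^(-1/2)`
  obtain ⟨w₃, hw₃, hlog⟩ := ev_log_sqrt (cV / (2 * C')) (by positivity)
  obtain ⟨w₄, hw₄⟩ := exists_nat_ge ((2 * C₂) ^ 2)
  refine ⟨k * (C * Real.sqrt (2 * C₂)) + 1, w₁ + w₂ + w₃ + w₄, by positivity, by omega, fun w hw => ?_⟩
  have hw3 : 3 ≤ w := by omega
  have hwr : (3 : ℝ) ≤ w := by exact_mod_cast hw3
  have hw0 : (0 : ℝ) < w := by linarith
  -- `q = w^(-1/2)`
  obtain ⟨q, hq⟩ : ∃ q : ℝ, q = (1 / (w : ℝ)) ^ (1 / 2 : ℝ) := ⟨_, rfl⟩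
  have hq0 : 0 < q := by rw [hq]; positivity
  have hqw : q * (w : ℝ) ^ (1 / 2 : ℝ) = 1 := by
    rw [hq, ← Real.mul_rpow (by positivity) hw0.le]
    rw [one_div, inv_mul_cancel₀ hw0.ne', Real.one_rpow]
  have hww : (w : ℝ) ^ (1 / 2 : ℝ) * (w : ℝ) ^ (1 / 2 : ℝ) = w := by
    rw [← Real.rpow_add hw0]; norm_num
  have hqq : q * q = 1 / w := by
    rw [hq, ← Real.rpow_add (by positivity)]; norm_num
  have hq1 : q ≤ 1 := by
    rw [hq]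
    exact Real.rpow_le_one (by positivity) (by rw [div_le_one hw0]; linarith) (by norm_num)
  have hwq : 1 / (w : ℝ) ≤ q := by rw [← hqq]; nlinarith
  have hlogw : 0 < Real.log w := Real.log_pos (by linarith)
  have hζ : C' / w * (2 * Real.log w / cV) ≤ q := by
    have h1 := hlog w (by omega)
    have h2 : 2 * Real.log w / cV ≤ (w : ℝ) ^ (1 / 2 : ℝ) / C' := by
      rw [div_le_div_iff₀ hcV hC']
      have h3 : cV / (2 * C') * (w : ℝ) ^ (1 / 2 : ℝ) * (2 * C') = (w : ℝ) ^ (1 / 2 : ℝ) * cV := by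
        field_simp
      nlinarith
    calc C' / w * (2 * Real.log w / cV) ≤ C' / w * ((w : ℝ) ^ (1 / 2 : ℝ) / C') :=
          mul_le_mul_of_nonneg_left h2 (by positivity)
      _ = (w : ℝ) ^ (1 / 2 : ℝ) * (1 / w) := by field_simp
      _ = q := by
          rw [← hqq]
          have : (w : ℝ) ^ (1 / 2 : ℝ) * (q * q) = q * (w : ℝ) ^ (1 / 2 : ℝ) * q := by ring
          rw [this, hqw, one_mul]
  obtain ⟨η, hη⟩ : ∃ η : ℝ, η = 2 * C₂ * q := ⟨_, rfl⟩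
  have hη0 : 0 < η := by rw [hη]; positivity
  have hη1 : η ≤ 1 := by
    have h1 : (2 * C₂) ^ 2 ≤ w := by
      have h2 : ((w₄ : ℕ) : ℝ) ≤ w := by exact_mod_cast (by omega : w₄ ≤ w)
      linarith
    have h2 : 2 * C₂ ≤ (w : ℝ) ^ (1 / 2 : ℝ) := by
      rw [← Real.sqrt_eq_rpow]
      exact Real.le_sqrt_of_sq_le h1
    rw [hη]
    calc 2 * C₂ * q ≤ (w : ℝ) ^ (1 / 2 : ℝ) * q := mul_le_mul_of_nonneg_right h2 hq0.le
      _ = 1 := by rw [mul_comm]; exact hqw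
  have hsq : Real.sqrt η = Real.sqrt (2 * C₂) * (1 / (w : ℝ)) ^ (1 / 4 : ℝ) := by
    rw [hη, Real.sqrt_mul (by positivity)]
    congr 1
    rw [hq, Real.sqrt_eq_rpow, ← Real.rpow_mul (by positivity)]
    norm_num
  obtain ⟨K, hK1, hxK⟩ := hx (k + 1) w (by omega) η hη0
  obtain ⟨x0, hx0⟩ := hxK (k + 2)
  obtain ⟨H₀, hH₀⟩ := hAB w
  obtain ⟨hVw1, hVw2⟩ := hVl' w hw3
  have hVw0 : 0 < Vz w := lt_of_lt_of_le (by positivity) hVw1
  have hφ := phW_pos w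
  refine ⟨1 / K, by positivity, fun κ hκ hκ1 => ?_⟩
  refine ⟨4 * κ / (c0 * Vz w * η) + 1, by positivity, ?_⟩
  have hlim : Tendsto (fun N : ℕ => Real.log (N : ℝ)) atTop atTop :=
    Real.tendsto_log_atTop.comp (tendsto_natCast_atTop_atTop (R := ℝ))
  have hpow : Tendsto (fun N : ℕ => (N : ℝ) ^ κ) atTop atTop :=
    (tendsto_rpow_atTop hκ).comp (tendsto_natCast_atTop_atTop (R := ℝ))
  filter_upwards [hav1' w (by omega), hx0, hlim.eventually_ge_atTop (max 1 (H₀ : ℝ)),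
    hlim.eventually_ge_atTop (phW w / (η * (c0 / (2 * κ)) ^ (k + 1))),
    hpow.eventually_ge_atTop (((max x0 (max w 3) : ℕ) : ℝ) + 1), eventually_ge_atTop 2]
    with N hN1 hN2 hN4' hN5 hN6 hN7
  have hN4 : 1 ≤ Real.log N := (le_max_left _ _).trans hN4'
  have hN4H : (H₀ : ℝ) ≤ Real.log N := (le_max_right _ _).trans hN4'
  intro y hy1 hy2 H hH1 hH2 r hr f hf
  -- facts on `y`
  have hymax : max x0 (max w 3) ≤ y := by
    have h1 : ((max x0 (max w 3) : ℕ) : ℝ) ≤ y := by linarith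
    exact_mod_cast h1
  have hyx : x0 ≤ y := (le_max_left _ _).trans hymax
  have hyw : w ≤ y := ((le_max_left _ _).trans (le_max_right _ _)).trans hymax
  have hy3 : 3 ≤ y := ((le_max_right _ _).trans (le_max_right _ _)).trans hymax
  have hNr : (1 : ℝ) < N := by exact_mod_cast (by omega : 1 < N)
  have hN0 : (0 : ℝ) < N := by linarith
  have hL0 : 0 < Real.log N := by linarith
  have hyK : y ^ K ≤ N := by
    have h1 : (y : ℝ) ^ K ≤ N := by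
      calc (y : ℝ) ^ K ≤ ((N : ℝ) ^ κ) ^ K := pow_le_pow_left₀ (Nat.cast_nonneg _) hy1.le K
        _ = (N : ℝ) ^ (κ * K) := by rw [Real.rpow_mul hN0.le, Real.rpow_natCast]
        _ ≤ (N : ℝ) ^ (1 : ℝ) := by
            apply Real.rpow_le_rpow_of_exponent_le hNr.le
            have hK0 : (0 : ℝ) < K := by exact_mod_cast hK1
            calc κ * K ≤ 1 / K * K := mul_le_mul_of_nonneg_right hκ1 hK0.le
              _ = 1 := by field_simp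
        _ = N := Real.rpow_one _
    exact_mod_cast h1
  have hlogy : Real.log y ≤ κ * Real.log N := by
    rw [← Real.log_rpow hN0]
    exact Real.log_le_log (by exact_mod_cast (by omega : 0 < y)) hy1.le
  have hlogy0 : 0 < Real.log y := Real.log_pos (by exact_mod_cast (by omega : 1 < y))
  -- the density
  obtain ⟨G, hG⟩ : ∃ G : ℝ, G = GG w y := ⟨_, rfl⟩
  obtain ⟨hG1, hG2⟩ := hgg w y (by omega) hyw
  rw [← hG] at hG1 hG2
  have hGlow : c0 / (2 * κ) / Real.log N ≤ G := by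
    have h1 := hV y hy3
    have h2 : c0 / (κ * Real.log N) ≤ c0 / Real.log y :=
      div_le_div_of_nonneg_left hc0.le hlogy0 hlogy
    have h3 : c0 / (2 * κ) / Real.log N = 1 / 2 * (c0 / (κ * Real.log N)) := by
      field_simp
    rw [h3]
    linarith
  have hG0 : 0 < G := lt_of_lt_of_le (by positivity) hGlow
  have hlogH : Real.log N ≤ H := by
    refine le_trans ?_ hH1
    have h2 : (1 : ℝ) ≤ 4 * κ / (c0 * Vz w * η) + 1 := by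
      have : 0 ≤ 4 * κ / (c0 * Vz w * η) := by positivity
      linarith
    nlinarith
  -- the number of the shifts
  obtain ⟨A, hA⟩ : ∃ A : Finset ℕ, A = AB w (b w r N) H := ⟨_, rfl⟩
  have hHH : H₀ ≤ H := by
    have : (H₀ : ℝ) ≤ H := hN4H.trans hlogH
    exact_mod_cast this
  obtain ⟨hAc, hAc2⟩ := hH₀ H (b w r N) hHH
  rw [← hA] at hAc hAc2
  have hAI : A ⊆ Icc 1 H := by rw [hA]; exact filter_subset _ _
  have hcard : 2 * κ / (c0 * η) * Real.log N ≤ A.card := by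
    refine le_trans ?_ hAc
    have h1 : (4 * κ / (c0 * Vz w * η)) * Real.log N ≤ H := by
      refine le_trans ?_ hH1
      apply mul_le_mul_of_nonneg_right _ hL0.le
      linarith
    have h2 : 2 * κ / (c0 * η) * Real.log N = 1 / 2 * Vz w * ((4 * κ / (c0 * Vz w * η)) * Real.log N) := by
      field_simp
      ring
    rw [h2]
    exact mul_le_mul_of_nonneg_left h1 (by positivity)
  have hone : 1 ≤ η * (G * A.card) := by
    have h1 : c0 / (2 * κ) / Real.log N * (2 * κ / (c0 * η) * Real.log N) ≤ G * A.card :=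
      mul_le_mul hGlow hcard (by positivity) hG0.le
    have h2 : c0 / (2 * κ) / Real.log N * (2 * κ / (c0 * η) * Real.log N) = 1 / η := by
      field_simp
    rw [h2] at h1
    calc (1 : ℝ) = η * (1 / η) := by field_simp
      _ ≤ η * (G * A.card) := mul_le_mul_of_nonneg_left h1 hη0.le
  -- the averages over the shifts
  have hCH : C' / w * H ≤ q * A.card := by
    have h1 : (H : ℝ) ≤ 2 * Real.log w / cV * A.card := by
      have h2 : 1 / 2 * (cV / Real.log w) * H ≤ A.card := by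
        refine le_trans ?_ hAc
        apply mul_le_mul_of_nonneg_right _ (Nat.cast_nonneg _)
        linarith
      have h3 : (H : ℝ) = 2 * Real.log w / cV * (1 / 2 * (cV / Real.log w) * H) := by
        field_simp
      rw [h3]
      exact mul_le_mul_of_nonneg_left h2 (by positivity)
    calc C' / w * H ≤ C' / w * (2 * Real.log w / cV * A.card) :=
          mul_le_mul_of_nonneg_left h1 (by positivity)
      _ = C' / w * (2 * Real.log w / cV) * A.card := by ring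
      _ ≤ q * A.card := mul_le_mul_of_nonneg_right hζ (Nat.cast_nonneg _)
  have hnn : ∀ (S : Finset ℕ), 0 ≤ ∏ p ∈ S, (1 + Ca / (p : ℝ)) - 1 := by
    intro S
    have h1 : ∏ p ∈ S, (1 : ℝ) ≤ ∏ p ∈ S, (1 + Ca / (p : ℝ)) := by
      refine prod_le_prod (fun _ _ => zero_le_one) fun p _ => ?_
      have : 0 ≤ Ca / (p : ℝ) := by positivity
      linarith
    rw [prod_const_one] at h1
    linarith
  obtain ⟨hav1a, hav1b⟩ := hN1 H y (s N) hlogH hH2 (hs N)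
  have hsum1 : ∑ t ∈ A, (∏ p ∈ (pz y).filter (fun p => w < p ∧ p ∣ s N + t), (1 + Ca / (p : ℝ)) - 1) ≤ q * A.card := by
    refine le_trans ?_ (hav1a.trans hCH)
    exact sum_le_sum_of_subset_of_nonneg hAI fun t _ _ => hnn _
  have hsum2 : ∀ u ∈ A, ∑ t ∈ A.erase u,
      (∏ p ∈ (pz y).filter (fun p => w < p ∧ (p : ℤ) ∣ (u : ℤ) - t), (1 + Ca / (p : ℝ)) - 1) ≤ q * A.card := by
    intro u hu
    refine le_trans ?_ ((hav1b u (hAI hu)).trans hCH)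
    exact sum_le_sum_of_subset_of_nonneg (erase_subset_erase u hAI) fun t _ _ => hnn _
  have hPG : ∀ i ≤ k + 1, ∑ T ∈ A.powersetCard i, |Pw (QW (sh (s N) T)) w y - G ^ i| ≤ η * (G * A.card) ^ i := by
    intro i hi
    have h1 := hav2' w (by omega) (s N) y A q hyw hq0.le hq1 hsum1 hsum2 i hi
    rw [← hG] at h1
    refine h1.trans ?_
    apply mul_le_mul_of_nonneg_right _ (by positivity)
    rw [hη]
    nlinarith
  -- the error term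
  have hNφ : 0 < (N : ℝ) / phW w := by positivity
  have he0 : ∀ i ≤ k + 1, (N : ℝ) / Real.log N ^ (k + 2) ≤ η * (N / phW w * G ^ i) := by
    intro i hi
    have h1 : G ^ (k + 1) ≤ G ^ i := pow_le_pow_of_le_one hG0.le hG2 hi
    have h2 : (c0 / (2 * κ)) ^ (k + 1) / Real.log N ^ (k + 1) ≤ G ^ (k + 1) := by
      rw [← div_pow]
      exact pow_le_pow_left₀ (by positivity) hGlow _
    have h3 : phW w ≤ η * (c0 / (2 * κ)) ^ (k + 1) * Real.log N := by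
      have h4 : 0 < η * (c0 / (2 * κ)) ^ (k + 1) := by positivity
      rw [div_le_iff₀ h4] at hN5
      linarith
    have h5 : phW w / Real.log N ^ (k + 2) ≤ η * ((c0 / (2 * κ)) ^ (k + 1) / Real.log N ^ (k + 1)) := by
      rw [div_le_iff₀ (by positivity), pow_succ (Real.log N) (k + 1)]
      have h6 : η * ((c0 / (2 * κ)) ^ (k + 1) / Real.log N ^ (k + 1)) *
          (Real.log N ^ (k + 1) * Real.log N) = η * (c0 / (2 * κ)) ^ (k + 1) * Real.log N := by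
        field_simp
      rw [h6]
      exact h3
    calc (N : ℝ) / Real.log N ^ (k + 2) = N / phW w * (phW w / Real.log N ^ (k + 2)) := by
          field_simp
      _ ≤ N / phW w * (η * ((c0 / (2 * κ)) ^ (k + 1) / Real.log N ^ (k + 1))) :=
          mul_le_mul_of_nonneg_left h5 hNφ.le
      _ ≤ N / phW w * (η * G ^ i) := by
          apply mul_le_mul_of_nonneg_left _ hNφ.le
          exact mul_le_mul_of_nonneg_left (h2.trans h1) hη0.le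
      _ = η * (N / phW w * G ^ i) := by ring
  -- the steps
  have hsteps : ∀ j < k, ∑ S ∈ A.powersetCard j, ∑ t ∈ A \ S,
      |F f N y (insert t S) - G * F f N y S| ≤ (C * Real.sqrt η) * (N / phW w * (G * A.card) ^ (j + 1)) := by
    intro j hj
    have h1 := hstep' j N y A f (muR w r) hf G η (N / phW w)
      (N / Real.log N ^ (k + 2)) (fun T => Pw (QW (sh (s N) T)) w y) hG0 hG2 hη0 hη1 hNφ.le (by positivity)
      hone (he0 _ (by omega)) ?_ ?_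
    · refine h1.trans ?_
      apply mul_le_mul_of_nonneg_right _ (by positivity)
      exact mul_le_mul_of_nonneg_right (hC1 j hj) (Real.sqrt_nonneg _)
    · intro T hT hTc
      exact ⟨Pw_nonneg _ _ _, hN2 y hyx hyw hyK r hr H T (by rw [← hA]; exact hT) (by omega)⟩
    · intro i hi
      exact hPG i (by omega)
  have hch := hchain k A (F f N y) hG0.le (by positivity : 0 ≤ C * Real.sqrt η) hNφ.le hsteps
  rw [← hA, ← hG]
  refine hch.trans ?_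
  have h20 : (k : ℝ) * (C * Real.sqrt η) ≤ (k * (C * Real.sqrt (2 * C₂)) + 1) * (1 / (w : ℝ)) ^ (1 / 4 : ℝ) := by
    rw [hsq]
    have : 0 ≤ (1 / (w : ℝ)) ^ (1 / 4 : ℝ) := by positivity
    nlinarith
  have h21 : (N : ℝ) / phW w * (G * A.card) ^ k ≤ N / phW w * (G * H) ^ k := by
    apply mul_le_mul_of_nonneg_left _ hNφ.le
    apply pow_le_pow_left₀ (by positivity)
    exact mul_le_mul_of_nonneg_left hAc2 hG0.le
  exact mul_le_mul h20 h21 (by positivity) (by positivity)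

/-- **BR** -/
theorem baseR' (hav1 : S_av1) (hav2 : S_av2) (hAB : S_AB) (hVl : S_Vlow) (hgg : St_gg)
    (hx : S_xcnt Fs bG (fun N => N)) (hstep : S_step Fs) (hchain : St_chain) (k : ℕ) :
    ∃ (C : ℝ) (w₀ : ℕ), 0 < C ∧ 3 ≤ w₀ ∧ ∀ w : ℕ, w₀ ≤ w → ∃ κ₀ : ℝ, 0 < κ₀ ∧ ∀ κ : ℝ, 0 < κ → κ ≤ κ₀ →
    ∃ Λ : ℝ, 0 < Λ ∧ ∀ᶠ N : ℕ in atTop, ∀ y : ℕ, (y : ℝ) < (N : ℝ) ^ κ → (N : ℝ) ^ κ ≤ y + 1 →
    ∀ H : ℕ, Λ * Real.log N ≤ H → H ≤ N → ∀ r : ℕ, (∀ p ∈ pz w, ¬ p ∣ r) → ∀ f : ℕ → ℝ, (∀ m, 0 ≤ f m ∧ f m ≤ muR w r m) →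
    ∑ D ∈ (AB w (bG w r N) H).powersetCard k, |Fs f N y D - GG w y ^ k * Fs f N y ∅| ≤
      C * (1 / (w : ℝ)) ^ (1 / 4 : ℝ) * (N / phW w * (GG w y * H) ^ k) :=
  base_gen Fs bG (fun N => N) (fun _ => le_rfl) hav1 hav2 hAB hVl hgg hx hstep hchain k

/-- **BRT** -/
theorem baseRT' (hav1 : S_av1) (hav2 : S_av2) (hAB : S_AB) (hVl : S_Vlow) (hgg : St_gg)
    (hx : S_xcnt Ft (fun _ r _ => r) (fun _ => 0)) (hstep : S_step Ft) (hchain : St_chain) (k : ℕ) :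
    ∃ (C : ℝ) (w₀ : ℕ), 0 < C ∧ 3 ≤ w₀ ∧ ∀ w : ℕ, w₀ ≤ w → ∃ κ₀ : ℝ, 0 < κ₀ ∧ ∀ κ : ℝ, 0 < κ → κ ≤ κ₀ →
    ∃ Λ : ℝ, 0 < Λ ∧ ∀ᶠ N : ℕ in atTop, ∀ y : ℕ, (y : ℝ) < (N : ℝ) ^ κ → (N : ℝ) ^ κ ≤ y + 1 →
    ∀ H : ℕ, Λ * Real.log N ≤ H → H ≤ N → ∀ r : ℕ, (∀ p ∈ pz w, ¬ p ∣ r) → ∀ f : ℕ → ℝ, (∀ m, 0 ≤ f m ∧ f m ≤ muR w r m) →
    ∑ D ∈ (AB w r H).powersetCard k, |Ft f N y D - GG w y ^ k * Ft f N y ∅| ≤
      C * (1 / (w : ℝ)) ^ (1 / 4 : ℝ) * (N / phW w * (GG w y * H) ^ k) :=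
  base_gen Ft (fun _ r _ => r) (fun _ => 0) (fun _ => Nat.zero_le _) hav1 hav2 hAB hVl hgg hx hstep hchain k

end Pool.Agent.J4.H38.GD
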