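import Mathlib
import Pool.Agent.J4.H38.GD.SDefs

/-! Project SD, piece P2 (helper45): the density of pairs of shifts. -/

set_option autoImplicit false

namespace Pool.Agent.J4.H38.GD

open Finset Filter
open Pool.Agent.Y822
open Pool.Agent.J4.H38.SR
open Pool.Agent.H373R2.T7 (pz Vz mem_pz)

namespace P2

lemma exists_res {p : ℕ} (hp : 0 < p) (t : ℕ) : ∃ r < p, p ∣ r + t := by
  refine ⟨(p - t % p) % p, Nat.mod_lt _ hp, ?_⟩
  have h1 : (p - t % p) % p + t ≡ (p - t % p) + t % p [MOD p] :=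
    Nat.ModEq.add (Nat.mod_modEq _ _) (Nat.mod_modEq _ _).symm
  have h2 : p - t % p + t % p = p := by
    have := Nat.mod_lt t hp
    omega
  rw [h2] at h1
  exact (Nat.modEq_zero_iff_dvd).1 (h1.trans (by simp [Nat.ModEq]))

lemma fT_one {p : ℕ} (hp : 0 < p) (a b : ℕ) : 1 ≤ fT {a, b} p := by
  obtain ⟨r, hr, hd⟩ := exists_res hp a
  unfold fT
  rw [Nat.one_le_iff_ne_zero, ← Nat.pos_iff_ne_zero, card_pos]
  exact ⟨r, mem_filter.2 ⟨mem_range.2 hr, a, by simp, hd⟩⟩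

lemma fT_two {p : ℕ} (hp : 0 < p) {a b : ℕ} (h : ¬ (p : ℤ) ∣ (a : ℤ) - b) : 2 ≤ fT {a, b} p := by
  obtain ⟨r, hr, hd⟩ := exists_res hp a
  obtain ⟨s, hs, hd'⟩ := exists_res hp b
  have hne : r ≠ s := by
    rintro rfl
    apply h
    have h1 : (p : ℤ) ∣ ((r + a : ℕ) : ℤ) := by exact_mod_cast hd
    have h2 : (p : ℤ) ∣ ((r + b : ℕ) : ℤ) := by exact_mod_cast hd'
    have h3 := dvd_sub h1 h2
    push_cast at h3
    have e : (r : ℤ) + a - (r + b) = a - b := by ring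
    rwa [e] at h3
  unfold fT
  rw [← card_pair hne]
  refine card_le_card fun x hx => ?_
  rw [mem_insert, mem_singleton] at hx
  rcases hx with rfl | rfl
  · exact mem_filter.2 ⟨mem_range.2 hr, a, by simp, hd⟩
  · exact mem_filter.2 ⟨mem_range.2 hs, b, by simp, hd'⟩

/-- one factor -/
lemma factor_le {z p : ℕ} (hp : p.Prime) (a b : ℕ) :
    1 - (fT {a, b} p : ℝ) / p ≤ (1 - 1 / (p : ℝ)) ^ 2 *
      ((if z < p ∧ (p : ℤ) ∣ (a : ℤ) - b then 1 + 2 / (p : ℝ) else 1) *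
        (if p ≤ z then (1 - 1 / (p : ℝ))⁻¹ else 1)) := by
  have hp2 : (2 : ℝ) ≤ p := by exact_mod_cast hp.two_le
  have hp0 : (0 : ℝ) < p := by linarith
  have hx : (0 : ℝ) < 1 / (p : ℝ) := by positivity
  have hx2 : 1 / (p : ℝ) ≤ 1 / 2 := by
    rw [div_le_div_iff₀ hp0 (by norm_num)]
    linarith
  set x : ℝ := 1 / (p : ℝ) with hxdef
  have e2 : 2 / (p : ℝ) = 2 * x := by rw [hxdef]; ring
  have ef : (fT {a, b} p : ℝ) / p = fT {a, b} p * x := by rw [hxdef]; ring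
  have h1 : (1 : ℝ) ≤ fT {a, b} p := by exact_mod_cast fT_one hp.pos a b
  rw [e2, ef]
  have hinv : (1 - x) ^ 2 * (1 - x)⁻¹ = 1 - x := by
    rw [sq, mul_assoc, mul_inv_cancel₀ (by linarith), mul_one]
  have hl1 : 1 - (fT {a, b} p : ℝ) * x ≤ 1 - x := by nlinarith
  by_cases hpz : p ≤ z
  · rw [if_pos hpz, if_neg (fun h => absurd h.1 (not_lt.2 hpz)), one_mul, hinv]
    exact hl1
  · rw [if_neg hpz, mul_one]
    by_cases hd : (p : ℤ) ∣ (a : ℤ) - b
    · rw [if_pos ⟨not_le.1 hpz, hd⟩]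
      refine hl1.trans ?_
      have : (1 - x) ^ 2 * (1 + 2 * x) - (1 - x) = (1 - x) * (x * (1 - 2 * x)) := by ring
      have h3 : 0 ≤ (1 - x) * (x * (1 - 2 * x)) :=
        mul_nonneg (by linarith) (mul_nonneg hx.le (by linarith))
      linarith
    · rw [if_neg (fun h => hd h.2), mul_one]
      have h2 : (2 : ℝ) ≤ fT {a, b} p := by exact_mod_cast fT_two hp.pos hd
      nlinarith [sq_nonneg x]

lemma factor_nonneg {p : ℕ} (_hp : p.Prime) (a b : ℕ) : 0 ≤ 1 - (fT {a, b} p : ℝ) / p := by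
  rw [sub_nonneg]
  apply div_le_one_of_le₀ _ (Nat.cast_nonneg _)
  exact_mod_cast fT_le_p {a, b} p

end P2

theorem VT_pair : ∃ C : ℝ, 1 ≤ C ∧ ∀ z w : ℕ, 3 ≤ z → 3 ≤ w → ∀ a b : ℕ,
    VT w {a, b} ≤ C * Real.log z * Vz w ^ 2 * tau z w ((a : ℤ) - b) := by
  classical
  obtain ⟨c, hc, hV⟩ := Vz_sharp
  refine ⟨max 1 (1 / c), le_max_left _ _, fun z w hz hw a b => ?_⟩
  have hf : ∀ p ∈ pz w, (0 : ℝ) < 1 - 1 / (p : ℝ) := by
    intro p hp
    have : (2 : ℝ) ≤ p := by exact_mod_cast (mem_pz.1 hp).2.two_le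
    rw [sub_pos, div_lt_one (by linarith)]
    linarith
  have hfz : ∀ p ∈ pz z, (0 : ℝ) < 1 - 1 / (p : ℝ) := by
    intro p hp
    have : (2 : ℝ) ≤ p := by exact_mod_cast (mem_pz.1 hp).2.two_le
    rw [sub_pos, div_lt_one (by linarith)]
    linarith
  -- the small primes
  have hsmall : ∏ p ∈ (pz w).filter (fun p => p ≤ z), (1 - 1 / (p : ℝ))⁻¹ ≤ (Vz z)⁻¹ := by
    rw [prod_inv_distrib]
    have hset : (pz w).filter (fun p => p ≤ z) = (pz z).filter (fun p => p ≤ w) := by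
      ext p
      simp only [mem_filter, mem_pz]
      tauto
    have hP1 : 0 < ∏ p ∈ (pz z).filter (fun p => p ≤ w), (1 - 1 / (p : ℝ)) :=
      prod_pos fun p hp => hfz p (mem_filter.1 hp).1
    have hP2 : ∏ p ∈ (pz z).filter (fun p => ¬ p ≤ w), (1 - 1 / (p : ℝ)) ≤ 1 := by
      refine prod_le_one (fun p hp => (hfz p (mem_filter.1 hp).1).le) fun p _ => ?_
      have : (0 : ℝ) ≤ 1 / (p : ℝ) := by positivity
      linarith
    rw [hset]
    apply inv_anti₀ (Vz_pos' z)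
    unfold Vz
    rw [← prod_filter_mul_prod_filter_not (pz z) (fun p => p ≤ w)]
    exact mul_le_of_le_one_right hP1.le hP2
  have hmain : VT w {a, b} ≤ Vz w ^ 2 * (tau z w ((a : ℤ) - b) *
      ∏ p ∈ (pz w).filter (fun p => p ≤ z), (1 - 1 / (p : ℝ))⁻¹) := by
    unfold VT tau Vz
    rw [pz_eq, prod_filter, prod_filter, ← prod_mul_distrib, ← prod_pow, ← prod_mul_distrib]
    exact prod_le_prod (fun p hp => P2.factor_nonneg (mem_pz.1 hp).2 a b)
      fun p hp => P2.factor_le (mem_pz.1 hp).2 a b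
  have htau : 0 ≤ tau z w ((a : ℤ) - b) := prod_nonneg fun p _ => by positivity
  have hlog : 0 < Real.log z := Real.log_pos (by exact_mod_cast (by omega : 1 < z))
  have hVi : (Vz z)⁻¹ ≤ max 1 (1 / c) * Real.log z := by
    have h1 := hV z hz
    have h2 : (Vz z)⁻¹ ≤ (c / Real.log z)⁻¹ := inv_anti₀ (by positivity) h1
    refine h2.trans ?_
    rw [inv_div]
    calc Real.log z / c = 1 / c * Real.log z := by ring
      _ ≤ _ := mul_le_mul_of_nonneg_right (le_max_right _ _) hlog.le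
  calc VT w {a, b} ≤ _ := hmain
    _ ≤ Vz w ^ 2 * (tau z w ((a : ℤ) - b) * (max 1 (1 / c) * Real.log z)) :=
        mul_le_mul_of_nonneg_left (mul_le_mul_of_nonneg_left (hsmall.trans hVi) htau)
          (by positivity)
    _ = _ := by ring

end Pool.Agent.J4.H38.GD
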