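import Mathlib
import Pool.Agent.J4.H38.GD.All
import Pool.Agent.J4.H38.GD.TFin

/-! Project GD: the sharp density, for sets. -/

set_option autoImplicit false

namespace Pool.Agent.J4.H38.GD

open Finset Filter
open Pool.Agent.Y822
open Pool.Agent.J4.H38.SR
open Pool.Agent.J4.H38.DV
open Pool.Agent.H373R2.T7 (pz Vz mem_pz)

lemma one_lt_loglog {δ : ℝ} (hδ : 0 < δ) (hδ1 : δ ≤ 1) : 1 / 2 < Real.log (Real.log (16 / δ)) := by
  have h1 : (16 : ℝ) ≤ 16 / δ := by rw [le_div_iff₀ hδ]; nlinarith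
  have h2 : (2 : ℝ) < Real.log 16 := by
    rw [show (16 : ℝ) = 2 ^ 4 by norm_num, Real.log_pow]
    have := Real.log_two_gt_d9
    push_cast
    linarith
  have h3 : 2 < Real.log (16 / δ) := h2.trans_le (Real.log_le_log (by norm_num) h1)
  have h4 : Real.log 2 < Real.log (Real.log (16 / δ)) := Real.log_lt_log (by norm_num) h3
  have := Real.log_two_gt_d9
  linarith

open Classical in
/-- **the sharp density**, for sets -/
theorem sharp (k : ℕ) (hk : 1 ≤ k) : ∃ c : ℝ, 0 < c ∧ ∀ (δ : ℝ), 0 < δ → δ ≤ 1 → ∀ w : ℕ, 3 ≤ w → ∃ N₀ : ℕ,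
    ∀ N H : ℕ, N₀ ≤ N → N₀ ≤ H → ∀ P ⊆ (Icc 1 N).filter Nat.Prime, δ * (N / Real.log N) ≤ P.card →
    ∀ b : ℕ → ℕ, (∀ p ∈ P, ∀ q ∈ P, (b p : ℤ) - b q = p - q ∨ (b p : ℤ) - b q = q - p) →
    c * (H / Real.log (Real.log (16 / δ))) ^ k ≤ (((Icc 1 H).powersetCard k).filter (fun D =>
      1 / 2 * (1 / 2 * Vz w) ^ k * (P.card : ℝ) ≤ ((P.filter (fun p => ∀ t ∈ D, Ro w (b p + t))).card : ℝ))).card := by
  classical
  obtain ⟨c, hc, h⟩ := sharp_maps k hk AB_card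
  refine ⟨c / (2 * k.factorial), by positivity, fun δ hδ hδ1 w hw => ?_⟩
  obtain ⟨N₁, h1⟩ := h δ hδ hδ1 w hw
  have hll := one_lt_loglog hδ hδ1
  obtain ⟨ll, hld⟩ : ∃ ll : ℝ, ll = Real.log (Real.log (16 / δ)) := ⟨_, rfl⟩
  rw [← hld] at h1 hll ⊢
  have hll0 : 0 < ll := by linarith
  obtain ⟨H₀, h2⟩ := maps_sets k hk (c / ll ^ k) (by positivity)
  refine ⟨max N₁ H₀, fun N H hN hH P hP hPc b hb => ?_⟩
  have h3 := h1 N H ((le_max_left _ _).trans hN) ((le_max_left _ _).trans hH) P hP hPc b hb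
  have h4 := h2 H ((le_max_right _ _).trans hH) (fun D =>
      1 / 2 * (1 / 2 * Vz w) ^ k * (P.card : ℝ) ≤ ((P.filter (fun p => ∀ t ∈ D, Ro w (b p + t))).card : ℝ))
    _ (fun d hd => ?_) ((le_of_eq (by rw [div_pow]; ring)).trans h3)
  · refine le_trans (le_of_eq ?_) h4
    rw [div_pow]
    field_simp
  · rw [mem_filter, Fintype.mem_piFinset] at hd
    refine ⟨hd.1, hd.2.trans (le_of_eq ?_)⟩
    rw [card_filter]
    push_cast
    refine sum_congr rfl fun p _ => ?_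
    unfold ro
    have e : (∀ t ∈ univ.image d, Ro w (b p + t)) ↔ ∀ i, Ro w (b p + d i) := by
      simp [mem_image]
    by_cases hr : ∀ i, Ro w (b p + d i)
    · rw [if_pos (e.2 hr)]
      refine prod_eq_one fun i _ => ?_
      rw [if_pos (hr i)]
    · rw [if_neg fun hh => hr (e.1 hh)]
      push Not at hr
      obtain ⟨i, hi⟩ := hr
      exact prod_eq_zero (mem_univ i) (if_neg hi)

/-- `W / φ (W)` -/
lemma totient_prod (w : ℕ) : ((∏ p ∈ pz w, p : ℕ).totient : ℝ) = (∏ p ∈ pz w, p : ℕ) * Vz w := by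
  have h1 := Nat.totient_eq_mul_prod_factors (∏ p ∈ pz w, p)
  have h2 : (∏ p ∈ pz w, p).primeFactors = pz w := Nat.primeFactors_prod fun p hp => (mem_pz.1 hp).2
  rw [h2] at h1
  have h3 : ((∏ p ∈ pz w, p : ℕ).totient : ℝ) = (((∏ p ∈ pz w, p : ℕ).totient : ℚ) : ℝ) := by push_cast; rfl
  rw [h3, h1]
  unfold Vz
  push_cast
  congr 1
  refine prod_congr rfl fun p _ => ?_
  rw [one_div]

/-- rough and coprime to the product -/
lemma Ro_iff (w n : ℕ) : Ro w n ↔ n.Coprime (∏ p ∈ pz w, p) := by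
  rw [Nat.coprime_prod_right_iff]
  constructor
  · intro h p hp
    rw [Nat.coprime_comm]
    exact ((mem_pz.1 hp).2.coprime_iff_not_dvd).2 (h p (mem_pz.1 hp).2 (mem_pz.1 hp).1)
  · intro h p hp hpw
    have h1 := h p (mem_pz.2 ⟨hpw, hp⟩)
    rw [Nat.coprime_comm] at h1
    exact (hp.coprime_iff_not_dvd).1 h1

/-- numerical lemma -/
lemma calcS {k : ℕ} {c0 v q Pc δ ε X L C : ℝ} (hv : 0 < v) (hc0 : 0 < c0) (hL : 0 < L) (hδ : 0 < δ)
    (hPc : δ * X ≤ Pc) (hε : ε ≤ δ / (4 * 2 ^ k)) (hX : 0 ≤ X) (hq : 1 / 2 * (1 / 2 * v) ^ k * Pc ≤ q)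
    (hC : c0 ^ k * (((1 / v) ^ k * q - ε * X) / L ^ k) ≤ C) : (c0 / 2) ^ k / 4 * (Pc / L ^ k) ≤ C := by
  refine le_trans ?_ hC
  have h1 : (1 / v) ^ k * (1 / 2 * (1 / 2 * v) ^ k * Pc) = 1 / 2 * (1 / 2) ^ k * Pc := by
    rw [mul_pow, div_pow, one_pow]
    field_simp
  have h2 : 1 / 2 * (1 / 2) ^ k * Pc ≤ (1 / v) ^ k * q := by
    rw [← h1]
    exact mul_le_mul_of_nonneg_left hq (by positivity)
  have h3 : ε * X ≤ 1 / 4 * (1 / 2) ^ k * Pc := by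
    calc ε * X ≤ δ / (4 * 2 ^ k) * X := mul_le_mul_of_nonneg_right hε hX
      _ = 1 / 4 * (1 / 2) ^ k * (δ * X) := by rw [div_pow, one_pow]; field_simp
      _ ≤ _ := mul_le_mul_of_nonneg_left hPc (by positivity)
  have h4 : 1 / 4 * (1 / 2) ^ k * Pc ≤ (1 / v) ^ k * q - ε * X := by linarith
  calc (c0 / 2) ^ k / 4 * (Pc / L ^ k) = c0 ^ k * ((1 / 4 * (1 / 2) ^ k * Pc) / L ^ k) := by
        rw [div_pow, div_pow, one_pow]
        field_simp
    _ ≤ _ := mul_le_mul_of_nonneg_left (div_le_div_of_nonneg_right h4 (by positivity)) (by positivity)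

end Pool.Agent.J4.H38.GD
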